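import Pool.Agent.H97.SHL.Defs

/-!
Short lines at the scale of SETH (MP_c62aed_lc): targets.
-/

set_option autoImplicit false

namespace Pool.Agent.H97.SHL

open Finset

/-! ### Decomposition -/

/-- (DC1) the heaviest cube. -/
def T_DC1 : Prop :=
  ∀ (m B s : ℕ) (Q : Finset (Pt m B)), 1 ≤ s → Q.Nonempty →
    ∃ (K : Finset (Fin m)) (z : Pt m B), Q.card ≤ (fx Q K z).card * s ^ K.card ∧
      Spr s (fx Q K z) K ∧ ∀ C : Finset (Fin m), Agr Q C → C ⊆ K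

/-- (DEC) decompositions exist. -/
def T_DEC : Prop :=
  ∀ (m B s : ℕ) (Q : Finset (Pt m B)), 1 ≤ B → 1 ≤ s →
    ∃ 𝒟 : Finset (Finset (Pt m B) × Finset (Fin m)), Dcm s Q 𝒟

/-- (OVB) the number of the parts, and the number of the points in the parts with more than `a₀`
fixed blocks. -/
def T_OVB : Prop :=
  ∀ (m B s a₀ : ℕ) (Q : Finset (Pt m B)) (𝒟 : Finset (Finset (Pt m B) × Finset (Fin m))),
    1 ≤ s → s ≤ B → Dcm s Q 𝒟 → (𝒟.card : ℝ) ≤ pcc m B s ∧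
    ∑ p ∈ 𝒟.filter (fun p => ¬ p.2.card ≤ a₀), (p.1.card : ℝ) ≤ Yc m B s a₀

/-! ### Random gadgets -/

open Classical in
/-- (HOE) a sum of independent centred variables. -/
def T_HOE : Prop :=
  ∀ (B q : ℕ) (ψ : Fin B → ℝ) (v : Fin q) (Λ : ℝ), 0 ≤ Λ →
    ((univ.filter fun g : Fin B → Fin q => Λ * ∑ γ, ψ γ ^ 2 <
      (∑ γ, ((if g γ = v then (1 : ℝ) else 0) - 1 / q) * ψ γ) ^ 2).card : ℝ) ≤
      2 * Real.exp (-(Λ / 2)) * (q : ℝ) ^ B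

/-- (ZRC) the recursion for the centred counts. -/
def T_ZRC : Prop :=
  ∀ (m B q : ℕ) (G : Fin m → Fin B → Fin q) (Q : Finset (Pt m B)) (C : Finset (Fin m))
    (z : Pt m B) (J : Finset (Fin m)) (η : Fin m → Fin q) (i : Fin m), i ∈ J → i ∉ C →
    Zs G (fx Q C z) J η = ∑ γ : Fin B, ((if G i γ = η i then (1 : ℝ) else 0) - 1 / q) *
      Zs G (fx Q (insert i C) (Function.update z i γ)) (J.erase i) η ∧
    ∀ (g : Fin B → Fin q) (P : Finset (Pt m B)),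
      Zs (Function.update G i g) P (J.erase i) η = Zs G P (J.erase i) η

open Classical in
/-- (GE1) the gadgets which fail for one event. -/
def T_GE1 : Prop :=
  ∀ (m B q : ℕ) (Q : Finset (Pt m B)) (C : Finset (Fin m)) (z : Pt m B) (J : Finset (Fin m))
    (η : Fin m → Fin q) (i : Fin m) (Λ : ℝ), 0 ≤ Λ → i ∈ J → i ∉ C →
    ((univ.filter fun G : Fin m → Fin B → Fin q => ¬ Zs G (fx Q C z) J η ^ 2 ≤
      Λ * ∑ γ : Fin B,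
        Zs G (fx Q (insert i C) (Function.update z i γ)) (J.erase i) η ^ 2).card : ℝ) ≤
      2 * Real.exp (-(Λ / 2)) * ((q : ℝ) ^ B) ^ m

/-- (GEX) good gadgets exist. -/
def T_GEX : Prop :=
  ∀ (m B q : ℕ) (𝓟 : Finset (Finset (Pt m B))) (Λ : ℝ), 0 < q → 0 ≤ Λ →
    (𝓟.card : ℝ) * ((B : ℝ) ^ m * 4 ^ m * (q : ℝ) ^ m * m * (2 * Real.exp (-(Λ / 2)))) < 1 →
    ∃ G : Fin m → Fin B → Fin q, Gd Λ 𝓟 G

/-- (ZBD) the centred counts are small. -/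
def T_ZBD : Prop :=
  ∀ (m B q : ℕ) (Λ : ℝ) (𝓟 : Finset (Finset (Pt m B))) (G : Fin m → Fin B → Fin q), 0 ≤ Λ →
    Gd Λ 𝓟 G → ∀ P ∈ 𝓟, ∀ (J : Finset (Fin m)) (η : Fin m → Fin q),
    Zs G P J η ^ 2 ≤ Λ ^ J.card * pr P J

/-- (PRS) pairs in spread sets. -/
def T_PRS : Prop :=
  ∀ (m B s : ℕ) (P : Finset (Pt m B)) (A M : Finset (Fin m)), Spr s P A → Disjoint M A →
    pr P M * s ^ M.card ≤ P.card ^ 2

/-- (EX1) expansion of a function with mean zero in the coordinates of `M`. -/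
def T_EX1 : Prop :=
  ∀ (m q : ℕ) (M : Finset (Fin m)) (e : (Fin m → Fin q) → ℝ), Mz e M →
    ∀ y y₀ : Fin m → Fin q,
    ∑ η ∈ univ.filter (fun η : Fin m → Fin q => ∀ i, i ∉ M → η i = y₀ i),
      e η * ∏ i ∈ M, ((if y i = η i then (1 : ℝ) else 0) - 1 / q) =
    e fun i => if i ∈ M then y i else y₀ i

/-- (EBD) the sum over `P` of a function with mean zero in the coordinates of `M`. -/
def T_EBD : Prop :=
  ∀ (m B q s : ℕ) (Λ τ β : ℝ) (G : Fin m → Fin B → Fin q) (P : Finset (Pt m B))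
    (A M : Finset (Fin m)) (e : (Fin m → Fin q) → ℝ), 0 ≤ Λ → 0 ≤ τ → 0 ≤ β →
    (q : ℝ) ^ 2 * Λ ≤ τ ^ 2 * s → Agr P A → Spr s P A → Disjoint M A →
    (∀ η : Fin m → Fin q, Zs G P M η ^ 2 ≤ Λ ^ M.card * pr P M) →
    Dep e (A ∪ M) → Mz e M → (∀ y, |e y| ≤ β) →
    |∑ x ∈ P, e (gp G x)| ≤ β * τ ^ M.card * P.card

/-! ### The density -/

/-- (AL1) the components depend on few coordinates and have mean zero. -/
def T_AL1 : Prop :=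
  ∀ (m q : ℕ) (A M : Finset (Fin m)), Disjoint A M → A.card + M.card ≤ q →
    Dep (eA q A M) (A ∪ M) ∧ Mz (eA q A M) M

/-- (AL2) the components are bounded. -/
def T_AL2 : Prop :=
  ∀ (m q r H : ℕ) (A M : Finset (Fin m)), 1 ≤ H → (∀ t, t < r → q ≤ H * (q - t)) → r ≤ q →
    A.card + M.card ≤ r → ∀ y : Fin m → Fin q,
    |eA q A M y| ≤ fA q A y * (2 * H : ℝ) ^ M.card ∧ 0 ≤ fA q A y ∧
    (Set.InjOn y (A : Set (Fin m)) → 1 ≤ fA q A y)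

/-- (AL3) regrouping. -/
def T_AL3 : Prop :=
  ∀ (m q : ℕ) (A M : Finset (Fin m)), Disjoint A M → ∀ y : Fin m → Fin q,
    ∑ M' ∈ A.powerset, eA q ∅ (M' ∪ M) y = eA q A M y

/-- (AL4) the density is bounded. -/
def T_AL4 : Prop :=
  ∀ (m q r H : ℕ), 1 ≤ H → (∀ t, t < r → q ≤ H * (q - t)) → r ≤ q →
    ∀ y : Fin m → Fin q, |DD q r y| ≤ (1 + 2 * (H : ℝ)) ^ m

/-- (GRP) grouping of the components of the density. -/
def T_GRP : Prop :=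
  ∀ (m q r a₀ g : ℕ) (A : Finset (Fin m)), A.card ≤ a₀ → a₀ + g ≤ r → ∀ y : Fin m → Fin q,
    DD q r y = ∑ M ∈ (Aᶜ).powerset.filter (fun M => M.card ≤ g), eA q A M y +
      ∑ M ∈ (univ : Finset (Finset (Fin m))).filter (fun M => M.card ≤ r ∧ g < (M \ A).card),
        eA q ∅ M y

/-- (EST) the sum of the density over a part. -/
def T_EST : Prop :=
  ∀ (m B q r a₀ g s H : ℕ) (Λ τ : ℝ) (G : Fin m → Fin B → Fin q) (P : Finset (Pt m B))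
    (A : Finset (Fin m)), 1 ≤ H → (∀ t, t < r → q ≤ H * (q - t)) → r ≤ q → a₀ + g ≤ r →
    A.card ≤ a₀ → 0 ≤ Λ → 0 < τ → τ ≤ 1 → (q : ℝ) ^ 2 * Λ ≤ τ ^ 2 * s →
    (1 + 2 * H * τ) ^ m ≤ 17 / 16 → (1 + 2 * (H : ℝ)) ^ m * τ ^ g ≤ 1 / 16 →
    Agr P A → Spr s P A →
    (∀ (M : Finset (Fin m)) (η : Fin m → Fin q), Zs G P M η ^ 2 ≤ Λ ^ M.card * pr P M) →
    ∀ x₀ ∈ P, |∑ x ∈ P, DD q r (gp G x) - P.card * fA q A (gp G x₀)| ≤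
      P.card * (fA q A (gp G x₀) / 16 + 1 / 16)

/-! ### The environment -/

/-- (LEA) leaves contain no good parts. -/
def T_LEA : Prop :=
  ∀ (m B q s σ : ℕ) (G : Fin m → Fin B → Fin q) (P : Finset (Pt m B)) (A : Finset (Fin m)),
    σ < s → P.Nonempty → Spr s P A → Lfc G σ P →
    ¬ ∀ x ∈ P, Set.InjOn (gp G x) (A : Set (Fin m))

/-- (FAM) the number of the sets which matter. -/
def T_FAM : Prop :=
  ∀ (X K : Type) [Fintype X] [DecidableEq X] (dc : Finset X → Finset (Finset X × K))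
    (𝓛 : Finset (Finset X)) (T₀ : ℕ), 0 < Fintype.card X →
    (∀ Q, (dc Q).card ≤ Fintype.card X) →
    (insert univ (pa dc (fam dc 𝓛 T₀))).card ≤
      5 * Fintype.card X ^ 4 * (2 * 𝓛.card + 1) ^ (T₀ + 2)

/-- (BLM) the families `bl` are monotone. -/
def T_BLM : Prop :=
  ∀ (X : Type) [DecidableEq X] (𝓛 𝓑 𝓑' : Finset (Finset X)) (t t' : ℕ), 𝓑 ⊆ 𝓑' → t ≤ t' →
    bl 𝓛 t 𝓑 ⊆ bl 𝓛 t' 𝓑' ∧ 𝓑 ⊆ bl 𝓛 t 𝓑 ∧
    (∀ Q ∈ 𝓑, ∀ A ∈ 𝓛, bl 𝓛 t {Q ∩ A} ⊆ bl 𝓛 (t + 1) 𝓑 ∧ bl 𝓛 t {Q \ A} ⊆ bl 𝓛 (t + 1) 𝓑) ∧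
    (bl 𝓛 t 𝓑).card ≤ 𝓑.card * (2 * 𝓛.card + 1) ^ t

/-- (ENV) the environment. -/
def T_ENV : Prop :=
  ∀ (m B q r a₀ g s H σ T₀ ℓ : ℕ) (τ Λ : ℝ), Par m B q r a₀ g s H σ T₀ ℓ τ Λ →
    ∀ 𝓛 : Finset (Finset (Pt m B)), 𝓛.card ≤ ℓ →
    ∃ (G : Fin m → Fin B → Fin q)
      (dc : Finset (Pt m B) → Finset (Finset (Pt m B) × Finset (Fin m)))
      (Fam : Finset (Pt m B) → Prop),
      Env (fun x => DD q r (gp G x)) ((1 + 2 * (H : ℝ)) ^ m) (Yc m B s a₀) (pcc m B s) T₀ 𝓛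
        (Lfc G σ) dc (fun p => p.2.card ≤ a₀)
        (fun p => ∀ x ∈ p.1, Set.InjOn (gp G x) (p.2 : Set (Fin m))) Fam

/-! ### Decision trees and refutations -/

/-- (SUM) the mass of a set. -/
def T_SUM : Prop :=
  ∀ (X K : Type) [Fintype X] [DecidableEq X] (D : X → ℝ) (U Y N : ℝ) (T₀ : ℕ)
    (𝓛 : Finset (Finset X)) (Lf : Finset X → Prop) (dc : Finset X → Finset (Finset X × K))
    (nar gd : Finset X × K → Prop) (Fam : Finset X → Prop),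
    Env D U Y N T₀ 𝓛 Lf dc nar gd Fam → ∀ Q, Fam Q →
    8 * ∑ x ∈ Q, D x ≤ 8 * U * (gs dc nar gd Q).card + Q.card + 8 * U * Y ∧
    (Lf Q → gs dc nar gd Q = ∅) ∧
    (gs dc nar gd Q).card = ∑ p ∈ dc Q, ((p.1 ∩ gs dc nar gd Q).card) ∧
    gs dc nar gd Q ⊆ Q

/-- (DTB) decision trees. -/
def T_DTB : Prop :=
  ∀ (X K : Type) [Fintype X] [DecidableEq X] (D : X → ℝ) (U Y N : ℝ) (T₀ : ℕ)
    (𝓛 : Finset (Finset X)) (Lf : Finset X → Prop) (dc : Finset X → Finset (Finset X × K))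
    (nar gd : Finset X × K → Prop) (Fam : Finset X → Prop),
    Env D U Y N T₀ 𝓛 Lf dc nar gd Fam → ∀ t S : ℕ, t ≤ T₀ → DT 𝓛 Lf univ t S →
    3 * (Fintype.card X : ℝ) ≤ 8 * S * U * Y

/-- (BAL) tree-like refutations give decision trees of small depth. -/
def T_BAL : Prop :=
  ∀ (X : Type) [DecidableEq X] (𝓛 : Finset (Finset X)) (Lf : Finset X → Prop),
    (∀ Q Q', Lf Q → Q' ⊆ Q → Lf Q') → ∀ (A : Finset X) (s t : ℕ), TreeX 𝓛 Lf A s →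
    s * 2 ^ t ≤ 3 ^ t → ∃ s' : ℕ, s' ≤ s ∧ DT 𝓛 Lf A t s'

/-- (SEQ) scans with bounded memory give decision trees of small depth. -/
def T_SEQ : Prop :=
  ∀ (X : Type) [Fintype X] [DecidableEq X] (𝓛 : Finset (Finset X)) (Lf : Finset X → Prop),
    (∀ Q Q', Lf Q → Q' ⊆ Q → Lf Q') → ∀ (T d : ℕ) (M : ℕ → Finset X),
    (∀ t, 0 < t → t < T → (M t)ᶜ ∈ 𝓛) → (∀ t, t < T → Lf (M t \ M (t + 1))) → 0 < T →
    T ≤ 2 ^ d → DT 𝓛 Lf (M 0 \ M T) d T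

/-- (UNF) `T` levels of a refutation. -/
def T_UNF : Prop :=
  ∀ (X : Type) [DecidableEq X] (𝓛 : Finset (Finset X)) (Lf : Finset X → Prop),
    (∀ Q Q', Lf Q → Q' ⊆ Q → Lf Q') → ∀ (S : ℕ) (A : ℕ → Finset X) (h : ℕ → ℕ),
    Dag 𝓛 Lf S A h → ∀ (T i : ℕ) (Q : Finset X), i < S → Q ⊆ A i →
    ∃ 𝓒 : Finset (Finset X), 𝓒.card ≤ 2 ^ T ∧ 𝓒 ⊆ bl 𝓛 T {Q} ∧
      (∀ c ∈ 𝓒, ∀ c' ∈ 𝓒, c ≠ c' → Disjoint c c') ∧ 𝓒.biUnion id = Q ∧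
      ∀ c ∈ 𝓒, Lf c ∨ ∃ j, j < S ∧ c ⊆ A j ∧ h j + T ≤ h i

/-- (PH1) a set of large mass inside a line meets the good narrow parts of the line. -/
def T_PH1 : Prop :=
  ∀ (X K : Type) [Fintype X] [DecidableEq X] (D : X → ℝ) (U Y N : ℝ) (T₀ : ℕ)
    (𝓛 : Finset (Finset X)) (Lf : Finset X → Prop) (dc : Finset X → Finset (Finset X × K))
    (nar gd : Finset X × K → Prop) (Fam : Finset X → Prop),
    Env D U Y N T₀ 𝓛 Lf dc nar gd Fam → ∀ P A' : Finset X, A' ∈ 𝓛 → P ⊆ A' →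
    (∀ p' ∈ dc A', Fam (P ∩ p'.1)) → (P.card : ℝ) ≤ 2 * ∑ x ∈ P, D x →
    3 * (P.card : ℝ) ≤ 8 * U * (((P ∩ gs dc nar gd A').card : ℝ) +
      (P ∩ ws dc nar A').card + N * Y)

/-- (PH2) the pieces of a good narrow part. -/
def T_PH2 : Prop :=
  ∀ (X K : Type) [Fintype X] [DecidableEq X] (D : X → ℝ) (U Y N : ℝ) (T₀ : ℕ)
    (𝓛 : Finset (Finset X)) (Lf : Finset X → Prop) (dc : Finset X → Finset (Finset X × K))
    (nar gd : Finset X × K → Prop) (Fam : Finset X → Prop),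
    Env D U Y N T₀ 𝓛 Lf dc nar gd Fam → ∀ (S : ℕ) (A : ℕ → Finset X) (h : ℕ → ℕ),
    Dag 𝓛 Lf S A h → ∀ T i : ℕ, T ≤ T₀ → i < S → ∀ p ∈ dc (A i), nar p → gd p →
    ∃ 𝓒 : Finset (Finset X), 𝓒.card ≤ 2 ^ T ∧ 𝓒 ⊆ bl 𝓛 T₀ {p.1} ∧
      (∀ c ∈ 𝓒, ∀ c' ∈ 𝓒, c ≠ c' → Disjoint c c') ∧ (∀ c ∈ 𝓒, c ⊆ p.1) ∧
      (∀ c ∈ 𝓒, ∃ j, j < S ∧ c ⊆ A j ∧ h j + T ≤ h i) ∧
      3 * (p.1.card : ℝ) ≤ 8 * U * (∑ c ∈ 𝓒, ((gs dc nar gd c).card : ℝ) + 2 ^ T * Y)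

/-- (PH3) the good narrow parts of one piece. -/
def T_PH3 : Prop :=
  ∀ (X K : Type) [Fintype X] [DecidableEq X] (D : X → ℝ) (U Y N : ℝ) (T₀ : ℕ)
    (𝓛 : Finset (Finset X)) (Lf : Finset X → Prop) (dc : Finset X → Finset (Finset X × K))
    (nar gd : Finset X × K → Prop) (Fam : Finset X → Prop),
    Env D U Y N T₀ 𝓛 Lf dc nar gd Fam → ∀ A ∈ 𝓛, ∀ p ∈ dc A, ∀ c ∈ bl 𝓛 T₀ {p.1},
    ∀ A' ∈ 𝓛, c ⊆ A' → 3 * ((gs dc nar gd c).card : ℝ) ≤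
      8 * U * (((c ∩ gs dc nar gd A').card : ℝ) + (c ∩ ws dc nar A').card + N * (N * Y))

/-- (PH4) one good narrow part. -/
def T_PH4 : Prop :=
  ∀ (X K : Type) [Fintype X] [DecidableEq X] (D : X → ℝ) (U Y N : ℝ) (T₀ : ℕ)
    (𝓛 : Finset (Finset X)) (Lf : Finset X → Prop) (dc : Finset X → Finset (Finset X × K))
    (nar gd : Finset X × K → Prop) (Fam : Finset X → Prop),
    Env D U Y N T₀ 𝓛 Lf dc nar gd Fam → ∀ (S : ℕ) (A : ℕ → Finset X) (h : ℕ → ℕ),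
    Dag 𝓛 Lf S A h → ∀ T i : ℕ, T ≤ T₀ → i < S → ∀ p ∈ dc (A i), nar p → gd p →
    9 * (p.1.card : ℝ) ≤ 64 * U ^ 2 * (((p.1 ∩ gst dc nar gd S A h i T).card : ℝ) +
      (p.1 ∩ wst dc nar S A).card + 2 * 2 ^ T * N ^ 2 * Y)

/-- (PH5) all good narrow parts. -/
def T_PH5 : Prop :=
  ∀ (X K : Type) [Fintype X] [DecidableEq X] (D : X → ℝ) (U Y N : ℝ) (T₀ : ℕ)
    (𝓛 : Finset (Finset X)) (Lf : Finset X → Prop) (dc : Finset X → Finset (Finset X × K))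
    (nar gd : Finset X × K → Prop) (Fam : Finset X → Prop),
    Env D U Y N T₀ 𝓛 Lf dc nar gd Fam → ∀ (S : ℕ) (A : ℕ → Finset X) (h : ℕ → ℕ),
    Dag 𝓛 Lf S A h → ∀ T i : ℕ, T ≤ T₀ → i < S →
    9 * ((gs dc nar gd (A i)).card : ℝ) ≤ 64 * U ^ 2 *
      (((gst dc nar gd S A h i T).card : ℝ) + S * Y + 2 * 2 ^ T * N ^ 3 * Y)

/-- (PHA) one phase. -/
def T_PHA : Prop :=
  ∀ (X K : Type) [Fintype X] [DecidableEq X] (D : X → ℝ) (U Y N : ℝ) (T₀ : ℕ)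
    (𝓛 : Finset (Finset X)) (Lf : Finset X → Prop) (dc : Finset X → Finset (Finset X × K))
    (nar gd : Finset X × K → Prop) (Fam : Finset X → Prop),
    Env D U Y N T₀ 𝓛 Lf dc nar gd Fam → ∀ (S : ℕ) (A : ℕ → Finset X) (h : ℕ → ℕ),
    Dag 𝓛 Lf S A h → ∀ T i : ℕ, T ≤ T₀ → i < S → 0 < (gs dc nar gd (A i)).card →
    16 * U ^ 2 * (S + 2 * N ^ 3 * 2 ^ T) * Y ≤ (gs dc nar gd (A i)).card →
    ∃ j, j < S ∧ h j + T ≤ h i ∧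
      ((gs dc nar gd (A i)).card : ℝ) ≤ 16 * U ^ 2 * S * (gs dc nar gd (A j)).card

/-- (LNG) a line with large good narrow parts is high. -/
def T_LNG : Prop :=
  ∀ (X K : Type) [Fintype X] [DecidableEq X] (D : X → ℝ) (U Y N : ℝ) (T₀ : ℕ)
    (𝓛 : Finset (Finset X)) (Lf : Finset X → Prop) (dc : Finset X → Finset (Finset X × K))
    (nar gd : Finset X × K → Prop) (Fam : Finset X → Prop),
    Env D U Y N T₀ 𝓛 Lf dc nar gd Fam → ∀ (S : ℕ) (A : ℕ → Finset X) (h : ℕ → ℕ),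
    Dag 𝓛 Lf S A h → ∀ T i : ℕ, T ≤ T₀ → i < S →
    8 * N * 2 ^ T * U * Y < 3 * (gs dc nar gd (A i)).card → T ≤ h i

/-- (ITR) all phases. -/
def T_ITR : Prop :=
  ∀ (X K : Type) [Fintype X] [DecidableEq X] (D : X → ℝ) (U Y N : ℝ) (T₀ : ℕ)
    (𝓛 : Finset (Finset X)) (Lf : Finset X → Prop) (dc : Finset X → Finset (Finset X × K))
    (nar gd : Finset X × K → Prop) (Fam : Finset X → Prop),
    Env D U Y N T₀ 𝓛 Lf dc nar gd Fam → 0 < Y → ∀ (S : ℕ) (A : ℕ → Finset X) (h : ℕ → ℕ),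
    Dag 𝓛 Lf S A h → ∀ L : ℕ, 16 * U ^ 2 * S ≤ 2 ^ L → ∀ R u i : ℕ, i < S → R * L ≤ u →
    u ≤ T₀ → 2 ^ u * (48 * U ^ 2 * N ^ 3 * Y) ≤ (gs dc nar gd (A i)).card →
    2 * (R + 1) * u ≤ 2 * h i + R * (R + 1) * L

/-- (ROO) the line which is false everywhere. -/
def T_ROO : Prop :=
  ∀ (X K : Type) [Fintype X] [DecidableEq X] (D : X → ℝ) (U Y N : ℝ) (T₀ : ℕ)
    (𝓛 : Finset (Finset X)) (Lf : Finset X → Prop) (dc : Finset X → Finset (Finset X × K))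
    (nar gd : Finset X × K → Prop) (Fam : Finset X → Prop),
    Env D U Y N T₀ 𝓛 Lf dc nar gd Fam →
    3 * (Fintype.card X : ℝ) ≤ 8 * U * ((gs dc nar gd univ).card + Y)

/-! ### The formula -/

/-- (ENC) the encoding of the blocks by bits. -/
def T_ENC : Prop :=
  ∀ n m b : ℕ, m * b ≤ n → ∃ (emb : Pt m (2 ^ b) → Fin n → Bool)
    (cl : Fin m → Fin (2 ^ b) → Finset (Fin n × Bool)), Enc emb cl b

/-- (FML) the formula. -/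
def T_FML : Prop :=
  ∀ (n m B q b : ℕ) (emb : Pt m B → Fin n → Bool)
    (cl : Fin m → Fin B → Finset (Fin n × Bool)) (G : Fin m → Fin B → Fin q),
    Enc emb cl b → q < m → (fm cl G).card ≤ (m * B) ^ 2 ∧ (∀ C ∈ fm cl G, C.card ≤ 2 * b) ∧
    ∀ z, ∃ C ∈ fm cl G, Falsified C z

/-- (TRL) from lines to sets of points. -/
def T_TRL : Prop :=
  ∀ (n m B q b : ℕ) (emb : Pt m B → Fin n → Bool)
    (cl : Fin m → Fin B → Finset (Fin n × Bool)) (G : Fin m → Fin B → Fin q),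
    Enc emb cl b → ∀ (𝓛 : Finset (Line n)) (σ : ℕ),
    (ply emb 𝓛).card ≤ 𝓛.card ∧
    (∀ Q : Set (Fin n → Bool), Leaf (fm cl G) σ Q → Lfc G σ (pl emb Q)) ∧
    (∀ (L : Line n) (s : ℕ), Tree (fm cl G) 𝓛 σ L s →
      TreeX (ply emb 𝓛) (Lfc G σ) (pl emb L)ᶜ s) ∧
    (∀ (Q : Set (Fin n → Bool)) (t s : ℕ), Branch (fm cl G) 𝓛 σ Q t s →
      DT (ply emb 𝓛) (Lfc G σ) (pl emb Q) t s) ∧
    (∀ (T d : ℕ) (M : ℕ → Line n), Scan (fm cl G) 𝓛 σ T M → T ≤ 2 ^ d →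
      0 < T ∧ DT (ply emb 𝓛) (Lfc G σ) univ d T) ∧
    ∀ (S r : ℕ) (L : ℕ → Line n) (h : ℕ → ℕ), Refutes (fm cl G) 𝓛 σ S r L h →
      Dag (ply emb 𝓛) (Lfc G σ) S (fun i => (pl emb (L i))ᶜ) h ∧ (pl emb (L r))ᶜ = univ

end Pool.Agent.H97.SHL
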