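import Pool.Agent.H97.SHL.StmtV

/-!
Short lines at the scale of SETH (MP_c62aed_lc): bounded space.
-/

set_option autoImplicit false

namespace Pool.Agent.H97.SHL

open Finset

theorem Leaf.mono {n : ℕ} {F : CNF n} {q q' : ℕ} {Q Q' : Set (Fin n → Bool)} (h : Leaf F q Q)
    (hq : q ≤ q') (hQ : Q' ⊆ Q) : Leaf F q' Q' := by
  obtain ⟨G, h1, h2, h3⟩ := h
  exact ⟨G, h1, h2.trans hq, fun x hx => h3 x (hQ hx)⟩

theorem Tree.mono {n : ℕ} {F : CNF n} {𝓛 𝓛' : Finset (Line n)} {q q' : ℕ} (hL : 𝓛 ⊆ 𝓛')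
    (hq : q ≤ q') {L : Line n} {s : ℕ} (h : Tree F 𝓛 q L s) : Tree F 𝓛' q' L s := by
  induction h with
  | ax L h1 h2 => exact Tree.ax L (hL h1) (h2.mono hq subset_rfl)
  | weak L L' s h1 _ h3 ih => exact Tree.weak L L' s (hL h1) ih h3
  | res L L₁ L₂ s₁ s₂ h1 _ _ h4 ih1 ih2 => exact Tree.res L L₁ L₂ s₁ s₂ (hL h1) ih1 ih2 h4

theorem Branch.mono {n : ℕ} {F : CNF n} {𝓛 𝓛' : Finset (Line n)} {q q' : ℕ} (hL : 𝓛 ⊆ 𝓛')
    (hq : q ≤ q') {Q : Set (Fin n → Bool)} {d s : ℕ} (h : Branch F 𝓛 q Q d s) :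
    Branch F 𝓛' q' Q d s := by
  induction h with
  | leaf Q d h1 => exact Branch.leaf Q d (h1.mono hq subset_rfl)
  | node Q L d s₁ s₂ h1 _ _ ih1 ih2 => exact Branch.node Q L d s₁ s₂ (hL h1) ih1 ih2

theorem Refutes.mono {n : ℕ} {F : CNF n} {𝓛 𝓛' : Finset (Line n)} {q q' S r : ℕ} (hL : 𝓛 ⊆ 𝓛')
    (hq : q ≤ q') {L : ℕ → Line n} {h : ℕ → ℕ} (H : Refutes F 𝓛 q S r L h) :
    Refutes F 𝓛' q' S r L h := by
  refine ⟨H.lt, H.empty, fun i hi => hL (H.mem i hi), fun i hi => ?_⟩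
  rcases H.step i hi with h1 | h1 | h1
  · exact Or.inl (h1.mono hq subset_rfl)
  · exact Or.inr (Or.inl h1)
  · exact Or.inr (Or.inr h1)

/-- the conjunction of the lines of `K` -/
def cj {n : ℕ} (K : Finset (Line n)) : Line n := {x | ∀ L ∈ K, x ∈ L}

open Classical in
/-- the lines and the conjunctions of at most `t` lines -/
noncomputable def cjs {n : ℕ} (𝓛 : Finset (Line n)) (t : ℕ) : Finset (Line n) :=
  𝓛 ∪ (𝓛.powerset.filter fun K => K.card ≤ t).image cj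

theorem card_small_subsets {α : Type} [DecidableEq α] (A : Finset α) (t : ℕ) :
    (A.powerset.filter fun K => K.card ≤ t).card ≤ (A.card + 1) ^ t := by
  have h1 : (A.powerset.filter fun K => K.card ≤ t) ⊆
      (range (t + 1)).biUnion fun i => A.powersetCard i := by
    intro K hK
    rw [mem_filter, mem_powerset] at hK
    rw [mem_biUnion]
    exact ⟨K.card, by rw [mem_range]; omega, by rw [mem_powersetCard]; exact ⟨hK.1, rfl⟩⟩
  calc (A.powerset.filter fun K => K.card ≤ t).card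
      ≤ ((range (t + 1)).biUnion fun i => A.powersetCard i).card := card_le_card h1
    _ ≤ ∑ i ∈ range (t + 1), (A.powersetCard i).card := card_biUnion_le
    _ = ∑ i ∈ range (t + 1), A.card.choose i := by simp only [card_powersetCard]
    _ ≤ ∑ i ∈ range (t + 1), A.card ^ i * 1 ^ (t - i) * t.choose i := by
        refine sum_le_sum fun i hi => ?_
        rw [mem_range] at hi
        have h2 : 1 ≤ t.choose i := Nat.choose_pos (by omega)
        have h3 : A.card.choose i ≤ A.card ^ i := Nat.choose_le_pow _ _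
        calc A.card.choose i ≤ A.card ^ i := h3
          _ = A.card ^ i * 1 ^ (t - i) * 1 := by simp
          _ ≤ A.card ^ i * 1 ^ (t - i) * t.choose i := Nat.mul_le_mul_left _ h2
    _ = (A.card + 1) ^ t := (add_pow _ _ _).symm

theorem card_cjs {n : ℕ} (𝓛 : Finset (Line n)) (t : ℕ) (ht : 2 ≤ t) (h : 𝓛.card ≤ 2 ^ t) :
    (cjs 𝓛 t).card ≤ 2 ^ (2 * t ^ 2) := by
  classical
  have h1 : (cjs 𝓛 t).card ≤ 𝓛.card + (𝓛.card + 1) ^ t := by
    unfold cjs
    refine (card_union_le _ _).trans (Nat.add_le_add_left ?_ _)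
    refine card_image_le.trans ?_
    have := card_small_subsets 𝓛 t
    calc _ = (𝓛.powerset.filter fun K => K.card ≤ t).card := by congr
      _ ≤ _ := this
  have h2 : 𝓛.card + 1 ≤ 2 ^ (t + 1) := by
    have : 1 ≤ 2 ^ t := Nat.one_le_two_pow
    rw [pow_succ]
    omega
  have h3 : (𝓛.card + 1) ^ t ≤ 2 ^ ((t + 1) * t) := by
    rw [pow_mul]
    exact Nat.pow_le_pow_left h2 t
  have h4 : 𝓛.card ≤ 2 ^ ((t + 1) * t) :=
    h.trans (Nat.pow_le_pow_right (by norm_num) (by nlinarith))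
  calc (cjs 𝓛 t).card ≤ 𝓛.card + (𝓛.card + 1) ^ t := h1
    _ ≤ 2 ^ ((t + 1) * t) + 2 ^ ((t + 1) * t) := Nat.add_le_add h4 h3
    _ = 2 ^ ((t + 1) * t + 1) := by rw [pow_succ]; ring
    _ ≤ 2 ^ (2 * t ^ 2) := Nat.pow_le_pow_right (by norm_num) (by nlinarith)

theorem Space.scan {n : ℕ} {F : CNF n} {𝓛 : Finset (Line n)} {t T : ℕ}
    {K : ℕ → Finset (Line n)} (H : Space F 𝓛 t T K) :
    Scan F (cjs 𝓛 t) (t * t) T fun i => cj (K i) := by
  classical
  refine ⟨?_, ?_, ?_, ?_⟩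
  · show cj (K 0) = Set.univ
    rw [H.zero]
    ext x
    simp [cj]
  · show cj (K T) = ∅
    ext x
    obtain ⟨L, hL, hx⟩ := H.last x
    simp only [cj, Set.mem_setOf_eq, Set.mem_empty_iff_false, iff_false, not_forall]
    exact ⟨L, hL, hx⟩
  · intro i _ hi
    show cj (K i) ∈ cjs 𝓛 t
    unfold cjs
    rw [mem_union, mem_image]
    right
    refine ⟨K i, ?_, rfl⟩
    rw [mem_filter, mem_powerset]
    exact ⟨H.mem i hi.le, H.card i hi.le⟩
  · intro i hi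
    have hstep := H.step i hi
    choose! G hG1 hG2 hG3 using hstep
    refine ⟨(K (i + 1)).biUnion G, ?_, ?_, ?_⟩
    · intro D hD
      rw [mem_biUnion] at hD
      obtain ⟨L, hL, hD⟩ := hD
      exact hG1 L hL hD
    · calc ((K (i + 1)).biUnion G).card ≤ (K (i + 1)).card * t :=
            card_biUnion_le_card_mul _ _ _ fun L hL => hG2 L hL
        _ ≤ t * t := Nat.mul_le_mul_right _ (H.card (i + 1) hi)
    · intro x hx
      obtain ⟨hx1, hx2⟩ := hx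
      have hx3 : ∃ L ∈ K (i + 1), x ∉ L := by
        by_contra hcon
        push Not at hcon
        exact hx2 hcon
      obtain ⟨L, hL, hxL⟩ := hx3
      obtain ⟨D, hD, hDx⟩ := hG3 L hL x ⟨hx1, hxL⟩
      exact ⟨D, by rw [mem_biUnion]; exact ⟨L, hL, hD⟩, hDx⟩

theorem Scan.mono {n : ℕ} {F : CNF n} {𝓛 : Finset (Line n)} {q q' T : ℕ} {M : ℕ → Line n}
    (hq : q ≤ q') (H : Scan F 𝓛 q T M) : Scan F 𝓛 q' T M :=
  ⟨H.zero, H.last, H.mem, fun i hi => (H.step i hi).mono hq subset_rfl⟩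

theorem log_two_sq {t : ℕ} (ht : 2 ≤ t) : Nat.log 2 (2 * t ^ 2) ≤ 5 * Nat.log 2 t := by
  have h1 : t < 2 ^ (Nat.log 2 t + 1) := Nat.lt_pow_succ_log_self (by norm_num) t
  have h2 : 1 ≤ Nat.log 2 t := Nat.le_log_of_pow_le (by norm_num) (by simpa using ht)
  have h3 : 2 * t ^ 2 < 2 ^ (2 * Nat.log 2 t + 3) := by
    have h4 : t ^ 2 < (2 ^ (Nat.log 2 t + 1)) ^ 2 := Nat.pow_lt_pow_left h1 (by norm_num)
    have h5 : (2 ^ (2 * Nat.log 2 t + 3) : ℕ) = 2 * (2 ^ (Nat.log 2 t + 1)) ^ 2 := by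
      rw [← pow_mul, ← pow_succ']
      congr 1
      ring
    omega
  have h6 : Nat.log 2 (2 * t ^ 2) < 2 * Nat.log 2 t + 3 :=
    Nat.log_lt_of_lt_pow (by positivity) h3
  omega

theorem mainV_of_mainU (H : MainU) : MainV := by
  classical
  intro ε hε
  obtain ⟨C, hC⟩ := H ε hε
  refine ⟨max (5 * C) 2, fun n t hn hnt hlog 𝓛 h𝓛 => ?_⟩
  have hCn : C ≤ n := by omega
  have hn2 : 2 ≤ n := by omega
  have ht2 : 2 ≤ t := hn2.trans hnt
  have htt : t ≤ 2 * t ^ 2 := by nlinarith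
  have hl := log_two_sq ht2
  have h5 : 5 * C ≤ max (5 * C) 2 := le_max_left _ _
  have hlog' : C * Nat.log 2 (2 * t ^ 2) ≤ n := by
    calc C * Nat.log 2 (2 * t ^ 2) ≤ C * (5 * Nat.log 2 t) := Nat.mul_le_mul_left _ hl
      _ = 5 * C * Nat.log 2 t := by ring
      _ ≤ max (5 * C) 2 * Nat.log 2 t := Nat.mul_le_mul_right _ h5
      _ ≤ n := hlog
  obtain ⟨F, h1, h2, h3, h4, h6, h7, h8⟩ := hC n (2 * t ^ 2) hCn (hnt.trans htt) hlog'
    (cjs 𝓛 t) (card_cjs 𝓛 t ht2 h𝓛)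
  have hsub : 𝓛 ⊆ cjs 𝓛 t := by
    unfold cjs
    exact subset_union_left
  refine ⟨F, ?_, ?_, h3, ?_, ?_, ?_, ?_⟩
  · calc F.card ≤ (2 * t ^ 2) ^ C := h1
      _ ≤ (t ^ 5) ^ C := by
          refine Nat.pow_le_pow_left ?_ C
          calc 2 * t ^ 2 ≤ t * t ^ 2 := Nat.mul_le_mul_right _ ht2
            _ = t ^ 3 := by ring
            _ ≤ t ^ 5 := Nat.pow_le_pow_right (by omega) (by norm_num)
      _ = t ^ (5 * C) := by rw [← pow_mul]
      _ ≤ t ^ (max (5 * C) 2) := Nat.pow_le_pow_right (by omega) h5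
  · intro D hD
    calc D.card ≤ C * Nat.log 2 (2 * t ^ 2) := h2 D hD
      _ ≤ C * (5 * Nat.log 2 t) := Nat.mul_le_mul_left _ hl
      _ = 5 * C * Nat.log 2 t := by ring
      _ ≤ max (5 * C) 2 * Nat.log 2 t := Nat.mul_le_mul_right _ h5
  · intro s hs
    exact h4 s (hs.mono hsub htt)
  · intro d s hd hb
    exact h6 d s (hd.trans htt) (hb.mono hsub htt)
  · intro T K hK
    exact h7 T _ (hK.scan.mono (by nlinarith))
  · intro S r L h hR
    exact h8 S r L h (hR.mono hsub htt)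

end Pool.Agent.H97.SHL
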