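import Pool.Agent.H97.SHL.Targets

/-! Short lines: the heaviest cube. -/

set_option autoImplicit false

namespace Pool.Agent.H97.SHL

open Finset

theorem pf_DC1 : T_DC1 := by
  classical
  intro m B s Q hs hQ
  obtain ⟨q₀, hq₀⟩ := hQ
  -- the admissible pairs
  set 𝓗 : Finset (Finset (Fin m) × Pt m B) :=
    (univ : Finset (Finset (Fin m) × Pt m B)).filter
      (fun p => Q.card ≤ (fx Q p.1 p.2).card * s ^ p.1.card) with h𝓗
  have hne : 𝓗.Nonempty := by
    refine ⟨(∅, q₀), ?_⟩
    rw [h𝓗, mem_filter]
    refine ⟨mem_univ _, ?_⟩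
    have : fx Q ∅ q₀ = Q := by
      unfold fx
      rw [filter_true_of_mem]
      intro x _ i hi
      exact absurd hi (notMem_empty _)
    simp [this]
  obtain ⟨⟨K, z⟩, hKz, hmax⟩ := exists_max_image 𝓗 (fun p => p.1.card) hne
  rw [h𝓗, mem_filter] at hKz
  have hheavy : Q.card ≤ (fx Q K z).card * s ^ K.card := hKz.2
  have hmax' : ∀ (K' : Finset (Fin m)) (z' : Pt m B),
      Q.card ≤ (fx Q K' z').card * s ^ K'.card → K'.card ≤ K.card := by
    intro K' z' h
    have := hmax (K', z') (by rw [h𝓗, mem_filter]; exact ⟨mem_univ _, h⟩)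
    exact this
  have hQpos : 0 < Q.card := card_pos.2 ⟨q₀, hq₀⟩
  have hPne : (fx Q K z).Nonempty := by
    rw [← card_pos]
    by_contra h0
    have h1 : (fx Q K z).card = 0 := by omega
    rw [h1, zero_mul] at hheavy
    omega
  obtain ⟨x₀, hx₀⟩ := hPne
  have hx₀' : x₀ ∈ Q ∧ ∀ i ∈ K, x₀ i = z i := by
    unfold fx at hx₀
    rw [mem_filter] at hx₀
    exact hx₀
  refine ⟨K, z, hheavy, ?_, ?_⟩
  · -- spread
    intro M hM z'
    by_contra hcon
    push Not at hcon
    set z'' : Pt m B := fun i => if i ∈ K then z i else z' i with hz''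
    have h1 : fx (fx Q K z) M z' = fx Q (K ∪ M) z'' := by
      ext x
      simp only [fx, mem_filter, mem_union]
      constructor
      · rintro ⟨⟨h1, h2⟩, h3⟩
        refine ⟨h1, fun i hi => ?_⟩
        by_cases hiK : i ∈ K
        · simp [hz'', hiK, h2 i hiK]
        · have hiM : i ∈ M := by
            rcases hi with hi | hi
            · exact absurd hi hiK
            · exact hi
          simp [hz'', hiK, h3 i hiM]
      · rintro ⟨h1, h2⟩
        refine ⟨⟨h1, fun i hi => ?_⟩, fun i hi => ?_⟩
        · have := h2 i (Or.inl hi)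
          simpa [hz'', hi] using this
        · have hiK : i ∉ K := disjoint_left.1 hM hi
          have := h2 i (Or.inr hi)
          simpa [hz'', hiK] using this
    have h2 : (K ∪ M).card = K.card + M.card := card_union_of_disjoint hM.symm
    have h3 : Q.card ≤ (fx Q (K ∪ M) z'').card * s ^ (K ∪ M).card := by
      rw [← h1, h2, pow_add]
      calc Q.card ≤ (fx Q K z).card * s ^ K.card := hheavy
        _ ≤ ((fx (fx Q K z) M z').card * s ^ M.card) * s ^ K.card :=
            Nat.mul_le_mul_right _ hcon.le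
        _ = (fx (fx Q K z) M z').card * (s ^ K.card * s ^ M.card) := by ring
    have h4 := hmax' _ _ h3
    have h5 : M.card = 0 := by omega
    rw [card_eq_zero] at h5
    subst h5
    have h6 : fx (fx Q K z) ∅ z' = fx Q K z := by
      ext x
      simp [fx]
    rw [h6] at hcon
    simp at hcon
  · -- agreement
    intro C hC
    have h1 : fx Q (K ∪ C) x₀ = fx Q K z := by
      ext x
      simp only [fx, mem_filter, mem_union]
      constructor
      · rintro ⟨h1, h2⟩
        refine ⟨h1, fun i hi => ?_⟩
        rw [h2 i (Or.inl hi), hx₀'.2 i hi]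
      · rintro ⟨h1, h2⟩
        refine ⟨h1, fun i hi => ?_⟩
        rcases hi with hi | hi
        · rw [h2 i hi, hx₀'.2 i hi]
        · exact hC x h1 x₀ hx₀'.1 i hi
    have h2 : K.card ≤ (K ∪ C).card := card_le_card subset_union_left
    have h3 : Q.card ≤ (fx Q (K ∪ C) x₀).card * s ^ (K ∪ C).card := by
      rw [h1]
      calc Q.card ≤ (fx Q K z).card * s ^ K.card := hheavy
        _ ≤ (fx Q K z).card * s ^ (K ∪ C).card :=
            Nat.mul_le_mul_left _ (Nat.pow_le_pow_right hs h2)
    have h4 := hmax' _ _ h3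
    have h5 : K = K ∪ C := eq_of_subset_of_card_le subset_union_left h4
    rw [h5]
    exact subset_union_right

end Pool.Agent.H97.SHL
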