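import Pool.Agent.H97.SHL.Targets

/-! Short lines: the gadgets which fail for one event. -/

set_option autoImplicit false

namespace Pool.Agent.H97.SHL

open Finset

theorem pf_GE1 (hHOE : T_HOE) (hZRC : T_ZRC) : T_GE1 := by
  classical
  intro m B q Q C z J η i Λ hΛ hiJ hiC
  set bad : (Fin m → Fin B → Fin q) → Prop := fun G => ¬ Zs G (fx Q C z) J η ^ 2 ≤
      Λ * ∑ γ : Fin B,
        Zs G (fx Q (insert i C) (Function.update z i γ)) (J.erase i) η ^ 2 with hbad
  set e := Equiv.funSplitAt i (Fin B → Fin q) with he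
  have hupd : ∀ (g g₀ : Fin B → Fin q) (R : {j // j ≠ i} → Fin B → Fin q),
      e.symm (g, R) = Function.update (e.symm (g₀, R)) i g := by
    intro g g₀ R
    funext j
    by_cases hj : j = i
    · subst hj
      simp [he, Equiv.funSplitAt, Equiv.piSplitAt]
    · rw [Function.update_of_ne hj]
      simp [he, Equiv.funSplitAt, Equiv.piSplitAt, hj]
  have hcount : ((univ.filter bad).card : ℝ) =
      ∑ R : {j // j ≠ i} → Fin B → Fin q,
        ((univ.filter fun g : Fin B → Fin q => bad (e.symm (g, R))).card : ℝ) := by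
    rw [Finset.natCast_card_filter, ← e.symm.sum_comp, Fintype.sum_prod_type_right]
    refine sum_congr rfl fun R _ => ?_
    rw [Finset.natCast_card_filter]
  have hone : ∀ R : {j // j ≠ i} → Fin B → Fin q,
      ((univ.filter fun g : Fin B → Fin q => bad (e.symm (g, R))).card : ℝ) ≤
        2 * Real.exp (-(Λ / 2)) * (q : ℝ) ^ B := by
    intro R
    set g₀ : Fin B → Fin q := fun _ => η i with hg₀
    set G₀ := e.symm (g₀, R) with hG₀
    set ψ : Fin B → ℝ := fun γ =>
      Zs G₀ (fx Q (insert i C) (Function.update z i γ)) (J.erase i) η with hψ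
    have h1 := hHOE B q ψ (η i) Λ hΛ
    have h2 : (univ.filter fun g : Fin B → Fin q => bad (e.symm (g, R))) =
        univ.filter fun g : Fin B → Fin q => Λ * ∑ γ, ψ γ ^ 2 <
          (∑ γ, ((if g γ = η i then (1 : ℝ) else 0) - 1 / q) * ψ γ) ^ 2 := by
      ext g
      simp only [mem_filter, mem_univ, true_and]
      rw [hupd g g₀ R, ← hG₀, hbad]
      simp only [not_le]
      obtain ⟨h3, h4⟩ := hZRC m B q (Function.update G₀ i g) Q C z J η i hiJ hiC
      obtain ⟨-, h5⟩ := hZRC m B q G₀ Q C z J η i hiJ hiC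
      have h6 : ∀ γ : Fin B, Zs (Function.update G₀ i g)
          (fx Q (insert i C) (Function.update z i γ)) (J.erase i) η = ψ γ := fun γ => h5 g _
      rw [h3]
      simp only [h6, Function.update_self]
    rw [h2]
    convert h1 using 2
  have hcardR : Fintype.card ({j // j ≠ i} → Fin B → Fin q) = (q ^ B) ^ (m - 1) := by
    simp
  have hm : 0 < m := i.pos
  calc ((univ.filter bad).card : ℝ)
      = ∑ R : {j // j ≠ i} → Fin B → Fin q,
        ((univ.filter fun g : Fin B → Fin q => bad (e.symm (g, R))).card : ℝ) := hcount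
    _ ≤ ∑ _R : {j // j ≠ i} → Fin B → Fin q, 2 * Real.exp (-(Λ / 2)) * (q : ℝ) ^ B :=
        sum_le_sum fun R _ => hone R
    _ = ((q : ℝ) ^ B) ^ (m - 1) * (2 * Real.exp (-(Λ / 2)) * (q : ℝ) ^ B) := by
        rw [sum_const, card_univ, hcardR, nsmul_eq_mul]
        push_cast
        rfl
    _ = 2 * Real.exp (-(Λ / 2)) * ((q : ℝ) ^ B) ^ m := by
        obtain ⟨m', rfl⟩ : ∃ m', m = m' + 1 := ⟨m - 1, by omega⟩
        rw [Nat.add_sub_cancel, pow_succ]
        ring

end Pool.Agent.H97.SHL
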