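import Pool.Agent.H97.SHL.FinU2
import Pool.Agent.H97.SHL.AsmV
import Pool.Agent.H97.SHL.DC1
import Pool.Agent.H97.SHL.GE1
import Pool.Agent.H1.SHL.BAL
import Pool.Agent.H13.SHL.OVB
import Pool.Agent.H26.SHL.DTB
import Pool.Agent.H29.SHL.AL3
import Pool.Agent.H33.SHL.ENV
import Pool.Agent.H33.SHL.EST
import Pool.Agent.H33.SHL.LEA
import Pool.Agent.H34.SHL.EX1
import Pool.Agent.H34.SHL.GEX
import Pool.Agent.H34.SHL.PH2
import Pool.Agent.H39.SHL.PRS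
import Pool.Agent.H4.SHL.AL2
import Pool.Agent.H4.SHL.EBD
import Pool.Agent.H49.SHL.FAM
import Pool.Agent.H51.SHL.AL4
import Pool.Agent.H54.SHL.PH4
import Pool.Agent.H54.SHL.SUM
import Pool.Agent.H6.SHL.ZBD
import Pool.Agent.H60.SHL.ENC
import Pool.Agent.H60.SHL.LNG
import Pool.Agent.H60.SHL.PH5
import Pool.Agent.H60.SHL.PHA
import Pool.Agent.H60.SHL.SEQ
import Pool.Agent.H60.SHL.TRL
import Pool.Agent.H61.SHL.UNF
import Pool.Agent.H63.SHL.ROO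
import Pool.Agent.H64.SHL.HOE
import Pool.Agent.H68.SHL.BLM
import Pool.Agent.H68.SHL.GRP
import Pool.Agent.H7.SHL.AL1
import Pool.Agent.H72.SHL.ITR
import Pool.Agent.H78.SHL.DEC
import Pool.Agent.H78.SHL.FML
import Pool.Agent.H80.SHL.ZRC
import Pool.Agent.H94.SHL.PH1
import Pool.Agent.H99.SHL.PH3

/-!
Short lines at the scale of SETH (MP_c62aed_lc): the theorem.
-/

set_option autoImplicit false

namespace Pool.Agent.H97.SHL

open Finset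

theorem aDEC : T_DEC := Pool.Agent.H78.SHL.pf_DEC pf_DC1
theorem aOVB : T_OVB := Pool.Agent.H13.SHL.pf_OVB
theorem aHOE : T_HOE := Pool.Agent.H64.SHL.pf_HOE
theorem aZRC : T_ZRC := Pool.Agent.H80.SHL.pf_ZRC
theorem aGE1 : T_GE1 := pf_GE1 aHOE aZRC
theorem aGEX : T_GEX := Pool.Agent.H34.SHL.GEX.pf_GEX aGE1
theorem aZBD : T_ZBD := Pool.Agent.H6.SHL.pf_ZBD aZRC
theorem aPRS : T_PRS := Pool.Agent.H39.SHL.pf_PRS
theorem aEX1 : T_EX1 := Pool.Agent.H34.SHL.EX1.pf_EX1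
theorem aEBD : T_EBD := Pool.Agent.H4.SHL.pf_EBD aPRS aEX1
theorem aAL1 : T_AL1 := Pool.Agent.H7.SHL.pf_AL1
theorem aAL2 : T_AL2 := Pool.Agent.H4.SHL.pf_AL2
theorem aAL3 : T_AL3 := pf_AL3
theorem aAL4 : T_AL4 := Pool.Agent.H51.SHL.pf_AL4 aAL2
theorem aGRP : T_GRP := Pool.Agent.H68.SHL.pf_GRP aAL3
theorem aEST : T_EST := Pool.Agent.H33.SHL.pf_EST aEBD aAL1 aAL2 aGRP
theorem aLEA : T_LEA := Pool.Agent.H33.SHL.pf_LEA
theorem aBLM : T_BLM := Pool.Agent.H68.SHL.pf_BLM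
theorem aFAM : T_FAM := pf_FAM aBLM
theorem aENV : T_ENV :=
  Pool.Agent.H33.SHL.pf_ENV aDEC aOVB aGEX aZBD aAL2 aAL4 aEST aLEA aBLM aFAM
theorem aSUM : T_SUM := Pool.Agent.H54.SHL.pf_SUM
theorem aDTB : T_DTB := Pool.Agent.H26.SHL.pf_DTB aSUM aBLM
theorem aBAL : T_BAL := Pool.Agent.H1.SHL.pf_BAL
theorem aSEQ : T_SEQ := Pool.Agent.H60.SHL.pf_SEQ
theorem aUNF : T_UNF := Pool.Agent.H61.SHL.pf_UNF aBLM
theorem aPH1 : T_PH1 := Pool.Agent.H94.SHL.pf_PH1 aSUM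
theorem aPH2 : T_PH2 := Pool.Agent.H34.SHL.PH2.pf_PH2 aSUM aBLM aUNF
theorem aPH3 : T_PH3 := Pool.Agent.H99.SHL.pf_PH3 aSUM aPH1
theorem aPH4 : T_PH4 := Pool.Agent.H54.SHL.pf_PH4 aPH2 aPH3
theorem aPH5 : T_PH5 := Pool.Agent.H60.SHL.pf_PH5 aPH4
theorem aPHA : T_PHA := Pool.Agent.H60.SHL.pf_PHA aPH5
theorem aLNG : T_LNG := Pool.Agent.H60.SHL.pf_LNG aPH2
theorem aITR : T_ITR := Pool.Agent.H72.SHL.pf_ITR aPHA aLNG
theorem aROO : T_ROO := pf_ROO aSUM aBLM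
theorem aENC : T_ENC := Pool.Agent.H60.SHL.pf_ENC
theorem aFML : T_FML := Pool.Agent.H78.SHL.pf_FML
theorem aTRL : T_TRL := Pool.Agent.H60.SHL.pf_TRL aSEQ

/-- short lines at the scale of SETH, without bounded space -/
theorem mainU : MainU := U.pf_FINU aENV aDTB aBAL aITR aROO aENC aFML aTRL

/-- short lines at the scale of SETH -/
theorem main : MainV := mainV_of_mainU mainU

end Pool.Agent.H97.SHL
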