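import Pool.Agent.H97.SHL.Stmt

/-!
Short lines at the scale of SETH (MP_c62aed_lc): auxiliary definitions.
-/

set_option autoImplicit false

namespace Pool.Agent.H97.SHL

open Finset

/-! ### Points and cubes -/

/-- points: `m` blocks, the alphabet `Fin B` -/
abbrev Pt (m B : ℕ) : Type := Fin m → Fin B

/-- the values of the gadgets `G` -/
def gp {m B q : ℕ} (G : Fin m → Fin B → Fin q) (x : Pt m B) : Fin m → Fin q := fun i => G i (x i)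

/-- the points of `Q` which agree with `z` on `C` -/
def fx {m B : ℕ} (Q : Finset (Pt m B)) (C : Finset (Fin m)) (z : Pt m B) : Finset (Pt m B) :=
  Q.filter fun x => ∀ i ∈ C, x i = z i

/-- all points of `P` agree on `A` -/
def Agr {m B : ℕ} (P : Finset (Pt m B)) (A : Finset (Fin m)) : Prop :=
  ∀ x ∈ P, ∀ y ∈ P, ∀ i ∈ A, x i = y i

/-- `P` is spread outside `A` -/
def Spr {m B : ℕ} (s : ℕ) (P : Finset (Pt m B)) (A : Finset (Fin m)) : Prop :=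
  ∀ M : Finset (Fin m), Disjoint M A → ∀ z : Pt m B, (fx P M z).card * s ^ M.card ≤ P.card

noncomputable def lg (m B : ℕ) : ℝ := 1 + m * Real.log B

noncomputable def pcc (m B s : ℕ) : ℝ := (m + 1) * lg m B * (s : ℝ) ^ m

noncomputable def Yc (m B s a₀ : ℕ) : ℝ := m * lg m B * ((s : ℝ) / B) ^ a₀ * (B : ℝ) ^ m

/-- a decomposition of `Q` into parts `(P, A)`: the points of `P` agree on `A`, and `P` is spread
outside `A` -/
structure Dcm {m B : ℕ} (s : ℕ) (Q : Finset (Pt m B))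
    (𝒟 : Finset (Finset (Pt m B) × Finset (Fin m))) : Prop where
  sub : ∀ p ∈ 𝒟, p.1 ⊆ Q
  ne : ∀ p ∈ 𝒟, p.1.Nonempty
  dis : ∀ p ∈ 𝒟, ∀ p' ∈ 𝒟, p ≠ p' → Disjoint p.1 p'.1
  cov : ∀ x ∈ Q, ∃ p ∈ 𝒟, x ∈ p.1
  agr : ∀ p ∈ 𝒟, Agr p.1 p.2
  spr : ∀ p ∈ 𝒟, Spr s p.1 p.2
  num : ∀ k : ℕ, ((𝒟.filter fun p => p.2.card = k).card : ℝ) ≤ lg m B * (s : ℝ) ^ k
  cls : ∀ C : Finset (Fin m), Agr Q C → ∀ p ∈ 𝒟, C ⊆ p.2

/-! ### Random gadgets -/

/-- the centred count of the pattern `η` on `J` in `P` -/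
noncomputable def Zs {m B q : ℕ} (G : Fin m → Fin B → Fin q) (P : Finset (Pt m B))
    (J : Finset (Fin m)) (η : Fin m → Fin q) : ℝ :=
  ∑ x ∈ P, ∏ i ∈ J, ((if G i (x i) = η i then (1 : ℝ) else 0) - 1 / q)

/-- the pairs of points of `P` which agree on `J` -/
def pr {m B : ℕ} (P : Finset (Pt m B)) (J : Finset (Fin m)) : ℕ :=
  ((P ×ˢ P).filter fun u => ∀ i ∈ J, u.1 i = u.2 i).card

/-- good gadgets for the family `𝓟` -/
def Gd {m B q : ℕ} (Λ : ℝ) (𝓟 : Finset (Finset (Pt m B))) (G : Fin m → Fin B → Fin q) : Prop :=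
  ∀ Q ∈ 𝓟, ∀ (C : Finset (Fin m)) (z : Pt m B) (J : Finset (Fin m)) (η : Fin m → Fin q),
    ∀ i ∈ J, i ∉ C → Zs G (fx Q C z) J η ^ 2 ≤
      Λ * ∑ γ : Fin B, Zs G (fx Q (insert i C) (Function.update z i γ)) (J.erase i) η ^ 2

/-- `e` depends on the coordinates of `A` only -/
def Dep {m q : ℕ} (e : (Fin m → Fin q) → ℝ) (A : Finset (Fin m)) : Prop :=
  ∀ y y' : Fin m → Fin q, (∀ i ∈ A, y i = y' i) → e y = e y'

/-- `e` has mean zero in every coordinate of `M` -/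
def Mz {m q : ℕ} (e : (Fin m → Fin q) → ℝ) (M : Finset (Fin m)) : Prop :=
  ∀ i ∈ M, ∀ y : Fin m → Fin q, ∑ v : Fin q, e (Function.update y i v) = 0

/-! ### The density -/

noncomputable def W (q t : ℕ) : ℝ := ∏ j ∈ range t, ((q : ℝ) / ((q : ℝ) - j))

open Classical in
/-- the density of the injective patterns on `A` -/
noncomputable def fA {m : ℕ} (q : ℕ) (A : Finset (Fin m)) (y : Fin m → Fin q) : ℝ :=
  if Set.InjOn y (A : Set (Fin m)) then W q A.card else 0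

noncomputable def eA {m : ℕ} (q : ℕ) (A M : Finset (Fin m)) (y : Fin m → Fin q) : ℝ :=
  ∑ L ∈ M.powerset, (-1 : ℝ) ^ (M \ L).card * fA q (A ∪ L) y

/-- the signed density -/
noncomputable def DD {m : ℕ} (q r : ℕ) (y : Fin m → Fin q) : ℝ :=
  ∑ M ∈ (univ : Finset (Finset (Fin m))).filter (fun M => M.card ≤ r), eA q ∅ M y

/-! ### Families of sets -/

/-- the sets which are obtained from a set of `𝓑` by at most `t` intersections with a set of `𝓛`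
or its complement -/
def bl {X : Type} [DecidableEq X] (𝓛 : Finset (Finset X)) :
    ℕ → Finset (Finset X) → Finset (Finset X)
  | 0, 𝓑 => 𝓑
  | t + 1, 𝓑 => bl 𝓛 t
      (𝓑 ∪ (Finset.image₂ (fun Q A => Q ∩ A) 𝓑 𝓛 ∪ Finset.image₂ (fun Q A => Q \ A) 𝓑 𝓛))

/-- the parts of the sets of `𝓠` -/
def pa {X K : Type} [DecidableEq X] (dc : Finset X → Finset (Finset X × K))
    (𝓠 : Finset (Finset X)) : Finset (Finset X) :=
  𝓠.biUnion fun Q => (dc Q).image Prod.fst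

/-- the family of the sets which are decomposed -/
def fam {X K : Type} [DecidableEq X] [Fintype X] (dc : Finset X → Finset (Finset X × K))
    (𝓛 : Finset (Finset X)) (T₀ : ℕ) : Finset (Finset X) :=
  ((bl 𝓛 T₀ {univ} ∪ 𝓛) ∪ bl 𝓛 T₀ (pa dc 𝓛)) ∪
    Finset.image₂ (fun P P' => P ∩ P') (pa dc (bl 𝓛 T₀ (pa dc 𝓛))) (pa dc 𝓛)

open Classical in
/-- the union of the good narrow parts of `A` -/
noncomputable def gs {X K : Type} [DecidableEq X] (dc : Finset X → Finset (Finset X × K))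
    (nar gd : Finset X × K → Prop) (A : Finset X) : Finset X :=
  ((dc A).filter fun p => nar p ∧ gd p).biUnion Prod.fst

open Classical in
/-- the union of the wide parts of `A` -/
noncomputable def ws {X K : Type} [DecidableEq X] (dc : Finset X → Finset (Finset X × K))
    (nar : Finset X × K → Prop) (A : Finset X) : Finset X :=
  ((dc A).filter fun p => ¬ nar p).biUnion Prod.fst

/-- the environment: the density `D`, the decompositions `dc`, narrow and good parts, and the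
family `Fam` of the sets for whose parts the estimates hold -/
structure Env {X K : Type} [Fintype X] [DecidableEq X] (D : X → ℝ) (U Y N : ℝ) (T₀ : ℕ)
    (𝓛 : Finset (Finset X)) (Lf : Finset X → Prop) (dc : Finset X → Finset (Finset X × K))
    (nar gd : Finset X × K → Prop) (Fam : Finset X → Prop) : Prop where
  U1 : 1 ≤ U
  N1 : 1 ≤ N
  Y0 : 0 ≤ Y
  bnd : ∀ x, D x ≤ U
  mono : ∀ Q Q', Lf Q → Q' ⊆ Q → Lf Q'
  sub : ∀ Q, ∀ p ∈ dc Q, p.1 ⊆ Q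
  dis : ∀ Q, ∀ p ∈ dc Q, ∀ p' ∈ dc Q, p ≠ p' → Disjoint p.1 p'.1
  cov : ∀ Q, ∀ x ∈ Q, ∃ p ∈ dc Q, x ∈ p.1
  num : ∀ Q, ((dc Q).card : ℝ) ≤ N
  wid : ∀ Q, ((ws dc nar Q).card : ℝ) ≤ Y
  bad : ∀ Q, ∀ p ∈ dc Q, ¬ gd p → ∀ R, R ⊆ p.1 → ∀ p' ∈ dc R, ¬ gd p'
  lf : ∀ Q, Lf Q → ∀ p ∈ dc Q, ¬ gd p
  lo : ∀ Q, Fam Q → ∀ p ∈ dc Q, nar p → gd p → (p.1.card : ℝ) ≤ 2 * ∑ x ∈ p.1, D x
  hi : ∀ Q, Fam Q → ∀ p ∈ dc Q, nar p → ¬ gd p → 8 * ∑ x ∈ p.1, D x ≤ p.1.card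
  full : (Fintype.card X : ℝ) ≤ 2 * ∑ x, D x
  f1 : ∀ c ∈ bl 𝓛 T₀ {univ}, Fam c
  f2 : ∀ A ∈ 𝓛, Fam A
  f3 : ∀ A ∈ 𝓛, ∀ p ∈ dc A, ∀ c ∈ bl 𝓛 T₀ {p.1}, Fam c
  f4 : ∀ A ∈ 𝓛, ∀ p ∈ dc A, ∀ c ∈ bl 𝓛 T₀ {p.1}, ∀ p'' ∈ dc c, ∀ A' ∈ 𝓛, ∀ p' ∈ dc A',
    Fam (p''.1 ∩ p'.1)

/-! ### Refutations, on the sets of the falsifying points -/

/-- decision trees -/
inductive DT {X : Type} [DecidableEq X] (𝓛 : Finset (Finset X)) (Lf : Finset X → Prop) :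
    Finset X → ℕ → ℕ → Prop
  | leaf (Q : Finset X) (t : ℕ) : Lf Q → DT 𝓛 Lf Q t 1
  | node (Q A : Finset X) (t s₁ s₂ : ℕ) : A ∈ 𝓛 → DT 𝓛 Lf (Q ∩ A) t s₁ →
      DT 𝓛 Lf (Q \ A) t s₂ → DT 𝓛 Lf Q (t + 1) (s₁ + s₂)

/-- tree-like refutations -/
inductive TreeX {X : Type} [DecidableEq X] (𝓛 : Finset (Finset X)) (Lf : Finset X → Prop) :
    Finset X → ℕ → Prop
  | ax (A : Finset X) : A ∈ 𝓛 → Lf A → TreeX 𝓛 Lf A 1
  | weak (A A' : Finset X) (s : ℕ) : A ∈ 𝓛 → TreeX 𝓛 Lf A' s → A ⊆ A' → TreeX 𝓛 Lf A (s + 1)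
  | res (A A₁ A₂ : Finset X) (s₁ s₂ : ℕ) : A ∈ 𝓛 → TreeX 𝓛 Lf A₁ s₁ → TreeX 𝓛 Lf A₂ s₂ →
      A ⊆ A₁ ∪ A₂ → TreeX 𝓛 Lf A (s₁ + s₂ + 1)

/-- refutations -/
structure Dag {X : Type} [DecidableEq X] (𝓛 : Finset (Finset X)) (Lf : Finset X → Prop) (S : ℕ)
    (A : ℕ → Finset X) (h : ℕ → ℕ) : Prop where
  mem : ∀ i, i < S → A i ∈ 𝓛
  step : ∀ i, i < S → Lf (A i) ∨ (∃ j, j < i ∧ h j ≤ h i ∧ A i ⊆ A j) ∨
    ∃ j k, j < i ∧ k < i ∧ h j + 1 ≤ h i ∧ h k + 1 ≤ h i ∧ A i ⊆ A j ∪ A k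

/-- the union of the good narrow parts of the lines which are `T` levels below the line `i` -/
noncomputable def gst {X K : Type} [DecidableEq X] (dc : Finset X → Finset (Finset X × K))
    (nar gd : Finset X × K → Prop) (S : ℕ) (A : ℕ → Finset X) (h : ℕ → ℕ) (i T : ℕ) : Finset X :=
  ((range S).filter fun j => h j + T ≤ h i).biUnion fun j => gs dc nar gd (A j)

/-- the union of the wide parts of all lines -/
noncomputable def wst {X K : Type} [DecidableEq X] (dc : Finset X → Finset (Finset X × K))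
    (nar : Finset X × K → Prop) (S : ℕ) (A : ℕ → Finset X) : Finset X :=
  (range S).biUnion fun j => ws dc nar (A j)

/-! ### Parameters -/

/-- leaves: at every point of `Q` one of `σ` collisions occurs -/
def Lfc {m B q : ℕ} (G : Fin m → Fin B → Fin q) (σ : ℕ) (Q : Finset (Pt m B)) : Prop :=
  ∃ 𝒯 : Finset ((Fin m × Fin B) × (Fin m × Fin B)), 𝒯.card ≤ σ ∧ ∀ x ∈ Q, ∃ t ∈ 𝒯,
    t.1.1 ≠ t.2.1 ∧ G t.1.1 t.1.2 = G t.2.1 t.2.2 ∧ x t.1.1 = t.1.2 ∧ x t.2.1 = t.2.2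

/-- the parameters: `m` blocks, alphabet `B`, `q` holes, degree `r`, width `a₀`, gap `g`, spread
`s`, `σ` axioms at a leaf, depth `T₀`, `ℓ` lines -/
structure Par (m B q r a₀ g s H σ T₀ ℓ : ℕ) (τ Λ : ℝ) : Prop where
  B1 : 1 ≤ B
  q0 : 0 < q
  rq : r ≤ q
  ag : a₀ + g ≤ r
  σs : σ < s
  sB : s ≤ B
  H1 : 1 ≤ H
  qH : ∀ t, t < r → q ≤ H * (q - t)
  τ0 : 0 < τ
  τ1 : τ ≤ 1
  Λ0 : 0 ≤ Λ
  qΛ : (q : ℝ) ^ 2 * Λ ≤ τ ^ 2 * s
  e1 : (1 + 2 * H * τ) ^ m ≤ 17 / 16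
  e2 : (1 + 2 * (H : ℝ)) ^ m * τ ^ g ≤ 1 / 16
  ub : 5 * ((B : ℝ) ^ m) ^ 4 * (2 * (ℓ : ℝ) + 1) ^ (T₀ + 2) *
    ((B : ℝ) ^ m * 4 ^ m * (q : ℝ) ^ m * m * (2 * Real.exp (-(Λ / 2)))) < 1

/-! ### The formula -/

/-- an encoding of the points by assignments: the clause `cl i γ` excludes exactly the value `γ`
of the block `i` -/
structure Enc {n m B : ℕ} (emb : Pt m B → Fin n → Bool)
    (cl : Fin m → Fin B → Finset (Fin n × Bool)) (b : ℕ) : Prop where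
  wid : ∀ i γ, (cl i γ).card ≤ b
  fal : ∀ x i γ, Falsified (cl i γ) (emb x) ↔ x i = γ
  all : ∀ z : Fin n → Bool, ∃ x : Pt m B, ∀ i, Falsified (cl i (x i)) z

/-- the formula: no collisions of the values of the gadgets -/
def fm {n m B q : ℕ} (cl : Fin m → Fin B → Finset (Fin n × Bool))
    (G : Fin m → Fin B → Fin q) : CNF n :=
  ((univ : Finset ((Fin m × Fin B) × (Fin m × Fin B))).filter fun t =>
    t.1.1 ≠ t.2.1 ∧ G t.1.1 t.1.2 = G t.2.1 t.2.2).image fun t =>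
      cl t.1.1 t.1.2 ∪ cl t.2.1 t.2.2

open Classical in
/-- the points in a set of assignments -/
noncomputable def pl {n m B : ℕ} (emb : Pt m B → Fin n → Bool) (L : Set (Fin n → Bool)) :
    Finset (Pt m B) := univ.filter fun x => emb x ∈ L

open Classical in
/-- the family of the sets of the falsifying points -/
noncomputable def ply {n m B : ℕ} (emb : Pt m B → Fin n → Bool) (𝓛 : Finset (Line n)) :
    Finset (Finset (Pt m B)) := 𝓛.image fun L => (pl emb L)ᶜ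

end Pool.Agent.H97.SHL
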