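import Pool.Agent.H97.SHL.Fin

/-!
Short lines at the scale of SETH (MP_c62aed_lc): assembly.
-/

set_option autoImplicit false

namespace Pool.Agent.H97.SHL

open Finset

theorem pf_FIN (hENV : T_ENV) (hDTB : T_DTB) (hBAL : T_BAL) (hITR : T_ITR) (hROO : T_ROO)
    (hENC : T_ENC) (hFML : T_FML) (hTRL : T_TRL) : Main := by
  intro c ε₀ hε₀
  set ε : ℝ := min ε₀ 1 with hεdef
  have hε : 0 < ε := lt_min hε₀ one_pos
  have hε1 : ε ≤ 1 := min_le_right _ _
  have hεε : ε ≤ ε₀ := min_le_left _ _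
  obtain ⟨k, hk⟩ := exists_nat_ge (256 / ε)
  have hk256 : (256 : ℝ) ≤ k := by
    have : (256 : ℝ) ≤ 256 / ε := by
      rw [le_div_iff₀ hε]
      linarith
    linarith
  have hk4 : 4 ≤ k := by
    have : (4 : ℝ) ≤ k := by linarith
    exact_mod_cast this
  have hkε : 256 ≤ k * ε := by
    rw [div_le_iff₀ hε] at hk
    exact hk
  obtain ⟨C₀, hC₀⟩ := prm_exists c k hk4
  obtain ⟨C₁, hC₁⟩ := exists_nat_ge (1024 / ε)
  refine ⟨max (max C₀ C₁) (max (2 + 2 * (k * (4 * c + 24))) (2 * k)), fun n hn 𝓛 h𝓛 => ?_⟩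
  set C : ℕ := max (max C₀ C₁) (max (2 + 2 * (k * (4 * c + 24))) (2 * k)) with hC
  have hC_a : C₀ ≤ C := by simp [hC]
  have hC_b : C₁ ≤ C := by simp [hC]
  have hC_c : 2 + 2 * (k * (4 * c + 24)) ≤ C := by simp [hC]
  have hC_d : 2 * k ≤ C := by simp [hC]
  obtain ⟨l, m, w, v, hP⟩ := hC₀ n (hC_a.trans hn)
  have hn16 := hP.n16
  have hnr : (0 : ℝ) < n := by
    have : 0 < n := by omega
    exact_mod_cast this
  have hw4 := hP.w4
  have hw1 := hP.hw1
  set a : ℕ := (4 * c + 24) * l with ha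
  set b : ℕ := k * a with hb
  -- real bounds for `v`
  have hεn : 1024 ≤ ε * n := by
    have h1 : (C₁ : ℝ) ≤ n := by exact_mod_cast (hC_b.trans hn)
    have h2 : 1024 ≤ C₁ * ε := by
      rw [div_le_iff₀ hε] at hC₁
      exact hC₁
    have h3 : (C₁ : ℝ) * ε ≤ n * ε := mul_le_mul_of_nonneg_right h1 hε.le
    linarith
  have hvr : 128 * (v : ℝ) ≤ ε * n := by
    have h1 : k * v ≤ 2 * n := by
      have h2 : k * (n / k) ≤ n := Nat.mul_div_le n k
      have h3 : k ≤ n := by omega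
      rw [hP.hv]
      calc k * (n / k + 1) = k * (n / k) + k := by ring
        _ ≤ 2 * n := by omega
    have h2 : (k : ℝ) * v ≤ 2 * n := by exact_mod_cast h1
    have h3 : 256 * (v : ℝ) ≤ k * ε * v := mul_le_mul_of_nonneg_right hkε (Nat.cast_nonneg v)
    have h4 : (k : ℝ) * ε * v = ε * (k * v) := by ring
    have h5 : ε * (k * v) ≤ ε * (2 * n) := mul_le_mul_of_nonneg_left h2 hε.le
    linarith
  have hεn1 : ε * n ≤ n := mul_le_of_le_one_left hnr.le hε1
  have hvn : 15 * v + 8 ≤ n := by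
    have : (15 * (v : ℝ) + 8) ≤ n := by
      have : (0 : ℝ) ≤ v := Nat.cast_nonneg v
      linarith
    exact_mod_cast this
  have hθ : (((15 * v + 8 : ℕ) : ℝ)) ≤ ε * n / 8 := by
    push_cast
    linarith
  -- the encoding, the environment, the formula
  have hmb : m * b ≤ n := hP.bm
  obtain ⟨emb, cl, henc⟩ := hENC n m b hmb
  have hpl : (ply emb 𝓛).card ≤ 2 ^ n ^ c := by
    have h1 : (ply emb 𝓛).card ≤ 𝓛.card := by
      unfold ply
      exact Finset.card_image_le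
    exact h1.trans h𝓛
  obtain ⟨G, dc, Fam, hE⟩ := hENV m (2 ^ b) (m - w) (m - 2 * w) (m - 3 * w) w (2 ^ a) k (n ^ c)
    (n ^ c + 2 * n) (2 ^ (n ^ c)) (1 / (64 * k * n)) ((n : ℝ) ^ (2 * c + 5)) (par_of_prm hP)
    (ply emb 𝓛) hpl
  obtain ⟨hF1, hF2, hF3⟩ := hFML n m (2 ^ b) (m - w) b emb cl G henc (by omega)
  obtain ⟨-, -, hT2, hT3, hT4, hT5⟩ := hTRL n m (2 ^ b) (m - w) b emb cl G henc 𝓛 (n ^ c)
  have hcardX : (Fintype.card (Pt m (2 ^ b)) : ℝ) = ((2 ^ b : ℕ) : ℝ) ^ m := by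
    rw [show Fintype.card (Pt m (2 ^ b)) = (2 ^ b) ^ m by simp [Pt]]
    push_cast
    rfl
  -- decision trees
  have key : ∀ (t S : ℕ), t ≤ n ^ c + 2 * n → DT (ply emb 𝓛) (Lfc G (n ^ c)) univ t S →
      (2 : ℝ) ^ n ≤ S * 2 ^ (7 * v + 2) := by
    intro t S ht hDT
    have h1 := hDTB _ _ _ _ _ _ _ _ _ _ _ _ _ hE t S ht hDT
    rw [hcardX] at h1
    exact hP.lower (Nat.cast_nonneg S) h1
  have key2 : ∀ S : ℝ, (2 : ℝ) ^ n ≤ S * 2 ^ (7 * v + 2) → (2 : ℝ) ^ ((1 - ε₀) * n) ≤ S := by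
    intro S hS
    have h1 : (2 : ℝ) ^ ((n : ℝ) - ((7 * v + 2 : ℕ) : ℝ)) ≤ S := by
      rw [Real.rpow_sub (by norm_num), div_le_iff₀ (by positivity), Real.rpow_natCast,
        Real.rpow_natCast]
      exact hS
    refine le_trans (Real.rpow_le_rpow_of_exponent_le (by norm_num) ?_) h1
    push_cast
    have h2 : ε * n ≤ ε₀ * n := mul_le_mul_of_nonneg_right hεε hnr.le
    have : (0 : ℝ) ≤ v := Nat.cast_nonneg v
    nlinarith
  -- if the number is at least `2 ^ n` there is nothing to prove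
  have big : ∀ s : ℕ, 2 ^ n ≤ s → (2 : ℝ) ^ ((1 - ε₀) * n) ≤ s := by
    intro s hs
    have h1 : (2 : ℝ) ^ (n : ℝ) ≤ s := by
      rw [Real.rpow_natCast]
      exact_mod_cast hs
    refine le_trans (Real.rpow_le_rpow_of_exponent_le (by norm_num) ?_) h1
    nlinarith
  refine ⟨fm cl G, ?_, ?_, hF3, ?_, ?_, ?_, ?_⟩
  · -- number of clauses
    have h2l : 2 ^ l ≤ n := by
      rw [hP.hl]
      exact Nat.pow_log_le_self 2 (by omega)
    have h1 : 2 ^ b ≤ n ^ (k * (4 * c + 24)) := by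
      calc 2 ^ b = (2 ^ l) ^ (k * (4 * c + 24)) := by
            rw [← pow_mul]
            congr 1
            rw [hb, ha]
            ring
        _ ≤ n ^ (k * (4 * c + 24)) := Nat.pow_le_pow_left h2l _
    calc (fm cl G).card ≤ (m * 2 ^ b) ^ 2 := hF1
      _ ≤ (n * n ^ (k * (4 * c + 24))) ^ 2 := Nat.pow_le_pow_left (Nat.mul_le_mul hP.mn h1) 2
      _ = n ^ (2 + 2 * (k * (4 * c + 24))) := by
          rw [mul_pow, ← pow_mul, ← pow_add]
          congr 1
          ring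
      _ ≤ n ^ C := Nat.pow_le_pow_right (by omega) hC_c
  · -- width
    intro D hD
    calc D.card ≤ 2 * b := hF2 D hD
      _ = (2 * (k * (4 * c + 24))) * l := by rw [hb, ha]; ring
      _ ≤ C * l := Nat.mul_le_mul_right _ (by omega)
      _ = C * Nat.log 2 n := by rw [hP.hl]
  · -- tree-like
    intro s hs
    rcases Nat.lt_or_ge s (2 ^ n) with h1 | h1
    · have h2 : s * 2 ^ (2 * n) ≤ 3 ^ (2 * n) := by
        calc s * 2 ^ (2 * n) ≤ 2 ^ n * 2 ^ (2 * n) := Nat.mul_le_mul_right _ h1.le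
          _ = 8 ^ n := by
            rw [← pow_add, show (8 : ℕ) = 2 ^ 3 by norm_num, ← pow_mul]
            congr 1
            ring
          _ ≤ 9 ^ n := Nat.pow_le_pow_left (by norm_num) _
          _ = 3 ^ (2 * n) := by rw [pow_mul]; norm_num
      have h3 := hT2 ∅ s hs
      have h4 : (pl emb (∅ : Line n))ᶜ = (univ : Finset (Pt m (2 ^ b))) := by
        ext x
        simp [pl]
      rw [h4] at h3
      obtain ⟨s', hs', hDT⟩ := hBAL (Pt m (2 ^ b)) (ply emb 𝓛) (Lfc G (n ^ c)) hE.mono univ s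
        (2 * n) h3 h2
      have h5 := key (2 * n) s' (by omega) hDT
      refine key2 s (h5.trans ?_)
      have h6 : (s' : ℝ) ≤ s := by exact_mod_cast hs'
      exact mul_le_mul_of_nonneg_right h6 (by positivity)
    · exact big s h1
  · -- decision trees
    intro t s ht hbr
    have h1 := hT3 Set.univ t s hbr
    have h4 : pl emb (Set.univ : Line n) = (univ : Finset (Pt m (2 ^ b))) := by
      ext x
      simp [pl]
    rw [h4] at h1
    exact key2 s (key t s (by omega) h1)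
  · -- scans
    intro T M hM
    rcases Nat.lt_or_ge T (2 ^ n) with h1 | h1
    · obtain ⟨-, h2⟩ := hT4 T n M hM h1.le
      exact key2 T (key n T (by omega) h2)
    · exact big T h1
  · -- dag-like
    intro S r L h href
    obtain ⟨hdag, hroot⟩ := hT5 S r L h href
    have hS1 : 1 ≤ S := by
      have := href.lt
      omega
    obtain ⟨hY, hY0⟩ := hP.Y_le
    have hg := hROO _ _ _ _ _ _ _ _ _ _ _ _ _ hE
    rw [hcardX] at hg
    have hg2 := hP.root hvn hg
    have hU := hP.U_le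
    have main : ∀ (κ K : ℝ) (R : ℕ), 1 ≤ R → (R : ℝ) * κ ≤ 1 →
        (R : ℝ) * (R + 1) * κ ≤ 2 * (R + 1 - K) → (h r : ℝ) ≤ K * n →
        (2 : ℝ) ^ ((κ - ε₀) * n) ≤ S := by
      intro κ K R hR hRκ hκ hK
      by_contra hcon
      push Not at hcon
      have hmon : (2 : ℝ) ^ ((κ - ε₀) * n) ≤ (2 : ℝ) ^ ((κ - ε) * n) := by
        refine Real.rpow_le_rpow_of_exponent_le (by norm_num) ?_
        exact mul_le_mul_of_nonneg_right (by linarith) hnr.le
      have hlt : (S : ℝ) < (2 : ℝ) ^ ((κ - ε) * n) := lt_of_lt_of_le hcon hmon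
      have hS1' : (1 : ℝ) ≤ S := by exact_mod_cast hS1
      have hpos : 0 < (κ - ε) * n := by
        by_contra h0
        push Not at h0
        have : (2 : ℝ) ^ ((κ - ε) * n) ≤ 1 := Real.rpow_le_one_of_one_le_of_nonpos (by norm_num) h0
        linarith
      set L₁ : ℕ := ⌈(κ - ε) * n⌉₊ with hL₁
      have hL₁a : (κ - ε) * n ≤ L₁ := Nat.le_ceil _
      have hL₁b : (L₁ : ℝ) < (κ - ε) * n + 1 := Nat.ceil_lt_add_one hpos.le
      have hSL : 16 * ((1 + 2 * (k : ℝ)) ^ m) ^ 2 * S ≤ 2 ^ (L₁ + 4 + 2 * v) := by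
        have h1 : (S : ℝ) ≤ 2 ^ L₁ := by
          calc (S : ℝ) ≤ (2 : ℝ) ^ ((κ - ε) * n) := hlt.le
            _ ≤ (2 : ℝ) ^ (L₁ : ℝ) := Real.rpow_le_rpow_of_exponent_le (by norm_num) hL₁a
            _ = 2 ^ L₁ := Real.rpow_natCast _ _
        have h2 : ((1 + 2 * (k : ℝ)) ^ m) ^ 2 ≤ (2 ^ v) ^ 2 :=
          pow_le_pow_left₀ (by positivity) hU 2
        calc 16 * ((1 + 2 * (k : ℝ)) ^ m) ^ 2 * S ≤ 16 * (2 ^ v) ^ 2 * 2 ^ L₁ :=
              mul_le_mul (mul_le_mul_of_nonneg_left h2 (by norm_num)) h1 (by positivity)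
                (by positivity)
          _ = 2 ^ (L₁ + 4 + 2 * v) := by
              rw [pow_add, pow_add, ← pow_mul]
              norm_num
              ring
      have hM : ((L₁ + 4 + 2 * v : ℕ) : ℝ) ≤ (κ - 7 / 8 * ε) * n := by
        push_cast
        nlinarith
      have hRM : R * (L₁ + 4 + 2 * v) ≤ n - (15 * v + 8) := by
        have h1 : (R : ℝ) * ((L₁ + 4 + 2 * v : ℕ) : ℝ) ≤ n - ε * n / 8 :=
          num_e (by exact_mod_cast hR) hε.le hnr.le hRκ hM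
        have h2 : (R : ℝ) * ((L₁ + 4 + 2 * v : ℕ) : ℝ) + ((15 * v + 8 : ℕ) : ℝ) ≤ n := by
          linarith
        have h3 : R * (L₁ + 4 + 2 * v) + (15 * v + 8) ≤ n := by exact_mod_cast h2
        omega
      have h1 := hITR _ _ _ _ _ _ _ _ _ _ _ _ _ hE hY0 S _ h hdag (L₁ + 4 + 2 * v) hSL R
        (n - (15 * v + 8)) r href.lt hRM (by omega) (by rw [hroot]; exact hg2)
      have h2 : 2 * ((R : ℝ) + 1) * ((n - (15 * v + 8) : ℕ) : ℝ) ≤
          2 * h r + R * (R + 1) * ((L₁ + 4 + 2 * v : ℕ) : ℝ) := by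
        exact_mod_cast h1
      rw [Nat.cast_sub hvn] at h2
      exact num_dag hε hnr hR hκ hθ hM (by linarith)
    refine ⟨fun ρ hρ hd => ?_, fun K hK hd => ?_⟩
    · refine main (1 - ρ) (1 + ρ) 1 le_rfl ?_ ?_ hd
      · push_cast
        linarith
      · push_cast
        linarith
    · obtain ⟨e1, e2, e3⟩ := expo hK
      exact main _ K _ e1 e2 e3 hd

end Pool.Agent.H97.SHL
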