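import Pool.Agent.H97.SHL.NumU

/-!
Short lines at the scale of SETH (MP_c62aed_lc): assembly.
-/

set_option autoImplicit false

namespace Pool.Agent.H97.SHL.U

open Finset Pool.Agent.H97.SHL

variable {k n t l m w v : ℕ}

theorem lg_le {m b n : ℕ} (h : m * b ≤ n) : lg m (2 ^ b) ≤ 1 + n ∧ 1 ≤ lg m (2 ^ b) := by
  have h1 : Real.log ((2 ^ b : ℕ) : ℝ) = b * Real.log 2 := by
    push_cast
    rw [Real.log_pow]
  have h2 : Real.log 2 ≤ 1 := by
    have := Real.log_two_lt_d9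
    linarith
  have h3 : 0 ≤ Real.log 2 := Real.log_nonneg (by norm_num)
  have h4 : ((m * b : ℕ) : ℝ) ≤ n := by exact_mod_cast h
  push_cast at h4
  have h5 : (0 : ℝ) ≤ (m : ℝ) * b := by positivity
  unfold lg
  rw [h1]
  constructor
  · have : (m : ℝ) * (b * Real.log 2) ≤ m * b := by
      calc (m : ℝ) * (b * Real.log 2) = (m * b) * Real.log 2 := by ring
        _ ≤ (m * b) * 1 := mul_le_mul_of_nonneg_left h2 h5
        _ = m * b := mul_one _
    linarith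
  · have : 0 ≤ (m : ℝ) * (b * Real.log 2) := by positivity
    linarith

theorem Prm.vn (hP : Prm k n t l m w v) : n ≤ k * v := by
  rw [hP.hv]
  exact (Nat.lt_mul_div_succ n (by have := hP.hk; omega)).le

/-- the bound for the density -/
theorem Prm.U_le (hP : Prm k n t l m w v) : (1 + 2 * (k : ℝ)) ^ m ≤ 2 ^ v := by
  have hk := hP.hk
  -- `1 + 2 k ≤ 4 ^ k`, `2 k m ≤ v`
  have h1 : 1 + 2 * k ≤ 2 ^ (2 * k) := by
    have : k < 2 ^ k := Nat.lt_two_pow_self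
    rw [two_mul, pow_add]
    nlinarith
  have h2 : 2 * k * m ≤ v := by
    -- `m * k * ((4 c + 24) l) ≤ n`, `(4 c + 24) l ≥ 2 k`
    have e1 := hP.bm
    have e2 : 2 * k ≤ 24 * l := by
      have := hP.hkl
      omega
    have e3 : m * (k * (2 * k)) ≤ n := le_trans
      (Nat.mul_le_mul_left _ (Nat.mul_le_mul_left _ e2)) e1
    have e4 : 2 * k * m ≤ n / k := by
      rw [Nat.le_div_iff_mul_le (by omega)]
      calc 2 * k * m * k = m * (k * (2 * k)) := by ring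
        _ ≤ n := e3
    rw [hP.hv]
    omega
  have h3 : (1 + 2 * k) ^ m ≤ 2 ^ v := by
    calc (1 + 2 * k) ^ m ≤ (2 ^ (2 * k)) ^ m := Nat.pow_le_pow_left h1 _
      _ = 2 ^ (2 * k * m) := by rw [← pow_mul]
      _ ≤ 2 ^ v := Nat.pow_le_pow_right (by norm_num) h2
  exact_mod_cast h3

theorem Prm.am (hP : Prm k n t l m w v) : 24 * l * m ≤ v := by
  have e1 := hP.bm
  have hk := hP.hk
  have e4 : 24 * l * m ≤ n / k := by
    rw [Nat.le_div_iff_mul_le (by omega)]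
    calc 24 * l * m * k = m * (k * (24 * l)) := by ring
      _ ≤ n := e1
  rw [hP.hv]
  omega

/-- number of parts -/
theorem Prm.N_le (hP : Prm k n t l m w v) :
    pcc m (2 ^ (k * (24 * l))) (2 ^ (24 * l)) ≤ 2 ^ (2 * v) := by
  obtain ⟨h1, h2⟩ := lg_le hP.bm
  have h3 : ((m : ℝ) + 1) * lg m (2 ^ (k * (24 * l))) ≤ 2 ^ v := by
    have e1 : (m : ℝ) ≤ n := by exact_mod_cast hP.mn
    have e2 : (((n + 1) ^ 2 : ℕ) : ℝ) ≤ 2 ^ v := by exact_mod_cast hP.hnn
    push_cast at e2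
    calc ((m : ℝ) + 1) * lg m (2 ^ (k * (24 * l))) ≤ (n + 1) * (1 + n) :=
          mul_le_mul (by linarith) h1 (by linarith) (by positivity)
      _ = ((n : ℝ) + 1) ^ 2 := by ring
      _ ≤ 2 ^ v := e2
  have h4 : (((2 ^ (24 * l) : ℕ) : ℝ)) ^ m ≤ 2 ^ v := by
    push_cast
    rw [← pow_mul]
    exact pow_le_pow_right₀ (by norm_num) hP.am
  unfold pcc
  calc _ ≤ (2 : ℝ) ^ v * 2 ^ v := mul_le_mul h3 h4 (by positivity) (by positivity)
    _ = 2 ^ (2 * v) := by rw [two_mul, pow_add]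

/-- exponents of the width bound -/
theorem Prm.wide (hP : Prm k n t l m w v) :
    n ≤ (k * (24 * l) - 24 * l) * (m - 3 * w) + 5 * v := by
  set a : ℕ := 24 * l with ha
  have hk := hP.hk
  have e1 : n < (m + 1) * (k * a) := hP.bm'
  have e2 : k * w ≤ m := hP.kw
  have e3 : a * m ≤ v := hP.am
  have e4 : k * a ≤ v := hP.hb
  have e5 : 3 * w ≤ m := by
    have := hP.w4
    omega
  obtain ⟨k', rfl⟩ : ∃ k', k = k' + 1 := ⟨k - 1, by omega⟩
  obtain ⟨m', hm'⟩ : ∃ m', m = m' + 3 * w := ⟨m - 3 * w, by omega⟩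
  have e6 : (k' + 1) * a - a = k' * a := by
    rw [Nat.add_mul, one_mul, Nat.add_sub_cancel]
  have e7 : m - 3 * w = m' := by omega
  rw [e6, e7]
  -- `n ≤ k a m + k a`, `k a m = k' a m' + a m' + 3 k a w`
  have e8 : (m + 1) * ((k' + 1) * a) = k' * a * m' + a * m' + 3 * (a * ((k' + 1) * w)) +
      (k' + 1) * a := by
    rw [hm']
    ring
  have e9 : a * ((k' + 1) * w) ≤ a * m := Nat.mul_le_mul_left _ e2
  have e10 : a * m' ≤ a * m := Nat.mul_le_mul_left _ (by omega)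
  omega

/-- the width bound -/
theorem Prm.Y_le (hP : Prm k n t l m w v) :
    2 ^ n * Yc m (2 ^ (k * (24 * l))) (2 ^ (24 * l)) (m - 3 * w) ≤
      2 ^ (6 * v) * ((2 ^ (k * (24 * l)) : ℕ) : ℝ) ^ m ∧
    0 < Yc m (2 ^ (k * (24 * l))) (2 ^ (24 * l)) (m - 3 * w) := by
  obtain ⟨h1, h2⟩ := lg_le hP.bm
  have hw := hP.wide
  set a : ℕ := 24 * l with ha
  have hk := hP.hk
  have hm0 : 0 < m := by
    have := hP.w4
    have := hP.hw1
    omega
  have hab : a ≤ k * a := Nat.le_mul_of_pos_left _ (by omega)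
  have h3 : (m : ℝ) * lg m (2 ^ (k * a)) ≤ 2 ^ v := by
    have e1 : (m : ℝ) ≤ n := by exact_mod_cast hP.mn
    have e2 : (((n + 1) ^ 2 : ℕ) : ℝ) ≤ 2 ^ v := by exact_mod_cast hP.hnn
    push_cast at e2
    calc (m : ℝ) * lg m (2 ^ (k * a)) ≤ (n + 1) * (1 + n) :=
          mul_le_mul (by linarith) h1 (by linarith) (by positivity)
      _ = ((n : ℝ) + 1) ^ 2 := by ring
      _ ≤ 2 ^ v := e2
  have h4 : (((2 ^ a : ℕ) : ℝ) / ((2 ^ (k * a) : ℕ) : ℝ)) ^ (m - 3 * w) =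
      1 / 2 ^ ((k * a - a) * (m - 3 * w)) := by
    have : ((2 ^ a : ℕ) : ℝ) / ((2 ^ (k * a) : ℕ) : ℝ) = 1 / 2 ^ (k * a - a) := by
      push_cast
      rw [div_eq_div_iff (by positivity) (by positivity), one_mul, ← pow_add]
      congr 1
      omega
    rw [this, div_pow, one_pow, ← pow_mul]
  have h5 : (2 : ℝ) ^ n ≤ 2 ^ ((k * a - a) * (m - 3 * w)) * 2 ^ (5 * v) := by
    rw [← pow_add]
    exact pow_le_pow_right₀ (by norm_num) hw
  unfold Yc
  constructor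
  · rw [h4]
    set E : ℝ := 2 ^ ((k * a - a) * (m - 3 * w)) with hE
    have hE0 : 0 < E := by positivity
    set X : ℝ := ((2 ^ (k * a) : ℕ) : ℝ) ^ m with hX
    have hX0 : 0 ≤ X := by positivity
    have h6 : (2 : ℝ) ^ n * (1 / E) ≤ 2 ^ (5 * v) := by
      rw [mul_one_div, div_le_iff₀ hE0]
      linarith
    calc (2 : ℝ) ^ n * (m * lg m (2 ^ (k * a)) * (1 / E) * X)
        = (m * lg m (2 ^ (k * a))) * (2 ^ n * (1 / E)) * X := by ring
      _ ≤ 2 ^ v * 2 ^ (5 * v) * X := by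
          refine mul_le_mul_of_nonneg_right ?_ hX0
          exact mul_le_mul h3 h6 (by positivity) (by positivity)
      _ = 2 ^ (6 * v) * X := by
          rw [← pow_add]
          congr 2
          ring
  · have : (0 : ℝ) < m := by exact_mod_cast hm0
    have h7 : 0 < lg m (2 ^ (k * a)) := by linarith
    positivity

/-- `8 S U Y` is small -/
theorem Prm.lower (hP : Prm k n t l m w v) {S : ℝ} (hS : 0 ≤ S)
    (h : 3 * (((2 ^ (k * (24 * l)) : ℕ) : ℝ) ^ m) ≤ 8 * S * (1 + 2 * (k : ℝ)) ^ m *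
      Yc m (2 ^ (k * (24 * l))) (2 ^ (24 * l)) (m - 3 * w)) :
    (2 : ℝ) ^ n ≤ S * 2 ^ (7 * v + 2) := by
  obtain ⟨hY, hY0⟩ := hP.Y_le
  have hU := hP.U_le
  set Y := Yc m (2 ^ (k * (24 * l))) (2 ^ (24 * l)) (m - 3 * w) with hYdef
  set X : ℝ := ((2 ^ (k * (24 * l)) : ℕ) : ℝ) ^ m with hX
  set U : ℝ := (1 + 2 * (k : ℝ)) ^ m with hUdef
  have hX0 : 0 < X := by positivity
  have hU0 : 0 < U := by positivity
  have h1 : 2 ^ n * (3 * X) ≤ 8 * S * 2 ^ v * (2 ^ (6 * v) * X) := by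
    calc (2 : ℝ) ^ n * (3 * X) ≤ 2 ^ n * (8 * S * U * Y) :=
          mul_le_mul_of_nonneg_left h (by positivity)
      _ = 8 * S * U * (2 ^ n * Y) := by ring
      _ ≤ 8 * S * 2 ^ v * (2 ^ (6 * v) * X) := by
          refine mul_le_mul ?_ hY (by positivity) (by positivity)
          exact mul_le_mul_of_nonneg_left hU (by positivity)
  have h2 : (2 : ℝ) ^ v * 2 ^ (6 * v) = 2 ^ (7 * v) := by
    rw [← pow_add]
    congr 1
    ring
  have h3 : (2 ^ n * 3) * X ≤ (8 * S * 2 ^ (7 * v)) * X := by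
    calc (2 ^ n * 3) * X = 2 ^ n * (3 * X) := by ring
      _ ≤ 8 * S * 2 ^ v * (2 ^ (6 * v) * X) := h1
      _ = (8 * S * (2 ^ v * 2 ^ (6 * v))) * X := by ring
      _ = (8 * S * 2 ^ (7 * v)) * X := by rw [h2]
  have h4 : (2 : ℝ) ^ n * 3 ≤ 8 * S * 2 ^ (7 * v) := le_of_mul_le_mul_right h3 hX0
  rw [pow_add]
  have h5 : 0 ≤ S * 2 ^ (7 * v) := by positivity
  nlinarith

/-- the good narrow parts of the root -/
theorem Prm.root (hP : Prm k n t l m w v) (hv : 15 * v + 8 ≤ n) {g : ℝ}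
    (h : 3 * (((2 ^ (k * (24 * l)) : ℕ) : ℝ) ^ m) ≤ 8 * (1 + 2 * (k : ℝ)) ^ m * (g +
      Yc m (2 ^ (k * (24 * l))) (2 ^ (24 * l)) (m - 3 * w))) :
    2 ^ (n - (15 * v + 8)) * (48 * ((1 + 2 * (k : ℝ)) ^ m) ^ 2 *
      (pcc m (2 ^ (k * (24 * l))) (2 ^ (24 * l))) ^ 3 *
      Yc m (2 ^ (k * (24 * l))) (2 ^ (24 * l)) (m - 3 * w)) ≤ g := by
  obtain ⟨hY, hY0⟩ := hP.Y_le
  have hU := hP.U_le
  have hN := hP.N_le
  have hlg := (lg_le hP.bm).2
  have hN0 : 0 ≤ pcc m (2 ^ (k * (24 * l))) (2 ^ (24 * l)) := by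
    unfold pcc
    have : 0 ≤ lg m (2 ^ (k * (24 * l))) := by linarith
    positivity
  set Y := Yc m (2 ^ (k * (24 * l))) (2 ^ (24 * l)) (m - 3 * w) with hYdef
  set N := pcc m (2 ^ (k * (24 * l))) (2 ^ (24 * l)) with hNdef
  set X : ℝ := ((2 ^ (k * (24 * l)) : ℕ) : ℝ) ^ m with hX
  set U : ℝ := (1 + 2 * (k : ℝ)) ^ m with hUdef
  have hX0 : 0 < X := by positivity
  have hU0 : 0 < U := by positivity
  -- `8 U Y ≤ X`
  have h1 : 8 * U * Y ≤ X := by
    have e1 : 2 ^ n * (8 * U * Y) ≤ 2 ^ n * X := by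
      calc (2 : ℝ) ^ n * (8 * U * Y) = 8 * U * (2 ^ n * Y) := by ring
        _ ≤ 8 * 2 ^ v * (2 ^ (6 * v) * X) := by
            refine mul_le_mul ?_ hY (by positivity) (by positivity)
            exact mul_le_mul_of_nonneg_left hU (by norm_num)
        _ = 2 ^ (3 + v + 6 * v) * X := by
            rw [pow_add, pow_add]
            norm_num
            ring
        _ ≤ 2 ^ n * X := by
            refine mul_le_mul_of_nonneg_right ?_ hX0.le
            exact pow_le_pow_right₀ (by norm_num) (by omega)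
    exact le_of_mul_le_mul_left e1 (by positivity)
  -- `X ≤ 4 U g`
  have h2 : X ≤ 4 * U * g := by nlinarith
  -- the product
  have h3 : 2 ^ (n - (15 * v + 8)) * (48 * U ^ 2 * N ^ 3 * Y) * (4 * U) ≤ X := by
    have e0 : (2 : ℝ) ^ n = 2 ^ (n - (15 * v + 8)) * 2 ^ (15 * v + 8) := by
      rw [← pow_add]
      congr 1
      omega
    have e1 : 2 ^ n * (2 ^ (n - (15 * v + 8)) * (48 * U ^ 2 * N ^ 3 * Y) * (4 * U)) ≤
        2 ^ n * X := by
      calc (2 : ℝ) ^ n * (2 ^ (n - (15 * v + 8)) * (48 * U ^ 2 * N ^ 3 * Y) * (4 * U))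
          = (2 ^ (n - (15 * v + 8)) * 192 * U ^ 3 * N ^ 3) * (2 ^ n * Y) := by ring
        _ ≤ (2 ^ (n - (15 * v + 8)) * 192 * (2 ^ v) ^ 3 * (2 ^ (2 * v)) ^ 3) *
            (2 ^ (6 * v) * X) := by
            refine mul_le_mul ?_ hY (by positivity) (by positivity)
            refine mul_le_mul ?_ (pow_le_pow_left₀ hN0 hN 3) (by positivity) (by positivity)
            exact mul_le_mul_of_nonneg_left (pow_le_pow_left₀ hU0.le hU 3) (by positivity)
        _ ≤ (2 ^ (n - (15 * v + 8)) * 256 * (2 ^ v) ^ 3 * (2 ^ (2 * v)) ^ 3) *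
            (2 ^ (6 * v) * X) := by
            have : (0 : ℝ) ≤ 2 ^ (n - (15 * v + 8)) * (2 ^ v) ^ 3 * (2 ^ (2 * v)) ^ 3 *
              (2 ^ (6 * v) * X) := by positivity
            nlinarith
        _ = (2 ^ (n - (15 * v + 8)) * (2 ^ 8 * ((2 ^ v) ^ 3 * (2 ^ (2 * v)) ^ 3 *
            2 ^ (6 * v)))) * X := by ring
        _ = (2 ^ (n - (15 * v + 8)) * 2 ^ (15 * v + 8)) * X := by
            congr 2
            rw [← pow_mul, ← pow_mul, ← pow_add, ← pow_add, ← pow_add]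
            congr 1
            ring
        _ = 2 ^ n * X := by rw [e0]
    exact le_of_mul_le_mul_left e1 (by positivity)
  have h4 : 2 ^ (n - (15 * v + 8)) * (48 * U ^ 2 * N ^ 3 * Y) * (4 * U) ≤ g * (4 * U) := by
    calc _ ≤ X := h3
      _ ≤ 4 * U * g := h2
      _ = g * (4 * U) := by ring
  exact le_of_mul_le_mul_right h4 (by positivity)


end Pool.Agent.H97.SHL.U
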