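import Pool.Agent.H97.SHL.Targets

/-!
Short lines at the scale of SETH (MP_c62aed_lc): numbers.
-/

set_option autoImplicit false

namespace Pool.Agent.H97.SHL

open Finset

/-- logarithms are small -/
theorem log_sq {n M : ℕ} (hn : 2 ^ (max 4 M) ≤ n) : M * Nat.log 2 n ≤ n ∧ 4 ≤ Nat.log 2 n ∧
    M ≤ Nat.log 2 n := by
  have h0 : n ≠ 0 := by
    have : 0 < 2 ^ (max 4 M) := by positivity
    omega
  have h1 : max 4 M ≤ Nat.log 2 n := Nat.le_log_of_pow_le (by norm_num) hn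
  have h2 : 2 ^ Nat.log 2 n ≤ n := Nat.pow_log_le_self 2 h0
  have h3 : ∀ l : ℕ, 4 ≤ l → l * l ≤ 2 ^ l := by
    intro l hl
    induction l, hl using Nat.le_induction with
    | base => norm_num
    | succ l hl ih =>
      rw [pow_succ]
      nlinarith
  have h4 : 4 ≤ Nat.log 2 n := le_trans (le_max_left _ _) h1
  refine ⟨?_, h4, le_trans (le_max_right _ _) h1⟩
  calc M * Nat.log 2 n ≤ Nat.log 2 n * Nat.log 2 n :=
        Nat.mul_le_mul_right _ (le_trans (le_max_right _ _) h1)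
    _ ≤ 2 ^ Nat.log 2 n := h3 _ h4
    _ ≤ n := h2

/-- the exponents -/
theorem expo {K : ℝ} (hK : 1 ≤ K) : 1 ≤ ⌊2 * K - 1⌋₊ ∧ (⌊2 * K - 1⌋₊ : ℝ) * (1 / (2 * K - 1)) ≤ 1 ∧
    (⌊2 * K - 1⌋₊ : ℝ) * (⌊2 * K - 1⌋₊ + 1) * (1 / (2 * K - 1)) ≤ 2 * (⌊2 * K - 1⌋₊ + 1 - K) := by
  have hu : 1 ≤ 2 * K - 1 := by linarith
  have h1 : (⌊2 * K - 1⌋₊ : ℝ) ≤ 2 * K - 1 := Nat.floor_le (by linarith)
  have h2 : 2 * K - 1 < ⌊2 * K - 1⌋₊ + 1 := Nat.lt_floor_add_one _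
  refine ⟨Nat.le_floor (by exact_mod_cast hu), ?_, ?_⟩
  · rw [mul_one_div, div_le_one (by linarith)]
    exact h1
  · rw [mul_one_div, div_le_iff₀ (by linarith)]
    set R : ℝ := (⌊2 * K - 1⌋₊ : ℝ)
    nlinarith [mul_nonneg (sub_nonneg.2 h1) (sub_nonneg.2 h2.le)]

/-- numbers: the dag-like case -/
theorem num_dag {ε κ K n θ M : ℝ} {R : ℕ} (hε : 0 < ε) (hn : 0 < n) (hR : 1 ≤ R)
    (hκ : (R : ℝ) * (R + 1) * κ ≤ 2 * (R + 1 - K)) (hθ : θ ≤ ε * n / 8)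
    (hM : M ≤ (κ - 7 / 8 * ε) * n)
    (h : 2 * ((R : ℝ) + 1) * n ≤ 2 * (K * n) + 2 * ((R : ℝ) + 1) * θ + R * (R + 1) * M) :
    False := by
  have hR' : (1 : ℝ) ≤ R := by exact_mod_cast hR
  have h1 : (R : ℝ) * (R + 1) * M ≤ (R : ℝ) * (R + 1) * ((κ - 7 / 8 * ε) * n) :=
    mul_le_mul_of_nonneg_left hM (by positivity)
  have h2 : (R : ℝ) * (R + 1) * κ * n ≤ 2 * (R + 1 - K) * n :=
    mul_le_mul_of_nonneg_right hκ hn.le
  have h3 : 2 * ((R : ℝ) + 1) * θ ≤ 2 * ((R : ℝ) + 1) * (ε * n / 8) :=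
    mul_le_mul_of_nonneg_left hθ (by positivity)
  have h4 : 0 < ε * n := mul_pos hε hn
  have h5 : 0 ≤ ((R : ℝ) + 1) * (ε * n) * (R - 1) :=
    mul_nonneg (by positivity) (by linarith)
  have h6 : 0 < ((R : ℝ) + 1) * (ε * n) := by positivity
  nlinarith

theorem num_e {R κ ε n M : ℝ} (hR : 1 ≤ R) (hε : 0 ≤ ε) (hn : 0 ≤ n) (hRκ : R * κ ≤ 1)
    (hM : M ≤ (κ - 7 / 8 * ε) * n) : R * M ≤ n - ε * n / 8 := by
  have h2 : R * M ≤ R * ((κ - 7 / 8 * ε) * n) := mul_le_mul_of_nonneg_left hM (by linarith)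
  have h3 : R * κ * n ≤ 1 * n := mul_le_mul_of_nonneg_right hRκ hn
  have h4 : 0 ≤ ε * n := by positivity
  have h5 : R * ((κ - 7 / 8 * ε) * n) = R * κ * n - 7 / 8 * (R * (ε * n)) := by ring
  have h6 : ε * n ≤ R * (ε * n) := le_mul_of_one_le_left h4 hR
  linarith

/-- the parameters for given `n` -/
structure Prm (c k n l m w v : ℕ) : Prop where
  hk : 4 ≤ k
  hl : l = Nat.log 2 n
  hl4 : 4 ≤ l
  hkl : k ≤ l
  hm : m = n / (k * ((4 * c + 24) * l))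
  hw : w = m / k
  hv : v = n / k + 1
  hw1 : 1 ≤ w
  hkk : 4096 * k ^ 2 ≤ n
  hA : ((3 * k) ^ k) ^ 2 ≤ n
  hb : k * ((4 * c + 24) * l) ≤ v
  hnn : (n + 1) ^ 2 ≤ 2 ^ v

/-- parameters exist -/
theorem prm_exists (c k : ℕ) (hk : 4 ≤ k) : ∃ C : ℕ, ∀ n : ℕ, C ≤ n →
    ∃ l m w v : ℕ, Prm c k n l m w v := by
  obtain ⟨n₁, hn₁⟩ : ∃ n₁ : ℕ, ∀ n : ℕ, n₁ ≤ n → (n + 1) ^ 2 ≤ 2 ^ (n / k + 1) := by
    -- `t ^ 2` is small against `2 ^ t`
    have h1 : ∀ t : ℕ, 8 * k ^ 2 ≤ 2 ^ t → (k * (t + 1) + 1) ^ 2 ≤ 2 ^ (2 * t + 1 + t) → True :=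
      fun _ _ _ => trivial
    have h2 : ∀ j : ℕ, 6 ≤ j → (j + 1) ^ 2 ≤ 2 ^ j := by
      intro j hj
      induction j, hj using Nat.le_induction with
      | base => norm_num
      | succ j hj ih =>
        rw [pow_succ 2 j]
        nlinarith
    -- `n + 1 ≤ k * (n / k + 1)`, and `k * j ≤ j ^ 2` for `j ≥ k`
    have h3 : ∀ j : ℕ, 16 ≤ j → j ^ 4 ≤ 2 ^ j := by
      intro j hj
      induction j, hj using Nat.le_induction with
      | base => norm_num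
      | succ j hj ih =>
        rw [pow_succ 2 j]
        have e1 : (j + 1) ^ 4 ≤ j ^ 4 * 2 := by
          have : (j + 1) ^ 4 = j ^ 4 + 4 * j ^ 3 + 6 * j ^ 2 + 4 * j + 1 := by ring
          rw [this]
          have e2 : 16 * j ^ 3 ≤ j ^ 4 := by
            calc 16 * j ^ 3 ≤ j * j ^ 3 := Nat.mul_le_mul_right _ hj
              _ = j ^ 4 := by ring
          have e3 : 16 * j ^ 2 ≤ j ^ 3 := by
            calc 16 * j ^ 2 ≤ j * j ^ 2 := Nat.mul_le_mul_right _ hj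
              _ = j ^ 3 := by ring
          have e4 : 16 * j ≤ j ^ 2 := by
            calc 16 * j ≤ j * j := Nat.mul_le_mul_right _ hj
              _ = j ^ 2 := by ring
          omega
        exact e1.trans (Nat.mul_le_mul_right _ ih)
    refine ⟨k * (k + 16), fun n hn => ?_⟩
    set j : ℕ := n / k with hj
    have hkpos : 0 < k := by omega
    have hj1 : k + 16 ≤ j := by
      rw [hj, Nat.le_div_iff_mul_le hkpos]
      calc (k + 16) * k = k * (k + 16) := by ring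
        _ ≤ n := hn
    have hn2 : n + 1 ≤ k * (j + 1) := Nat.lt_mul_div_succ n hkpos
    have h4 : n + 1 ≤ (j + 1) ^ 2 := by
      calc n + 1 ≤ k * (j + 1) := hn2
        _ ≤ (j + 1) * (j + 1) := Nat.mul_le_mul_right _ (by omega)
        _ = (j + 1) ^ 2 := by ring
    calc (n + 1) ^ 2 ≤ ((j + 1) ^ 2) ^ 2 := Nat.pow_le_pow_left h4 2
      _ = (j + 1) ^ 4 := by ring
      _ ≤ 2 ^ (j + 1) := h3 _ (by omega)
  set M : ℕ := k * k * (k * (4 * c + 24)) + k with hM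
  refine ⟨max (max n₁ (2 ^ (max 4 M))) (max (4096 * k ^ 2) (((3 * k) ^ k) ^ 2)), fun n hn => ?_⟩
  have a1 : n₁ ≤ n := le_trans (le_trans (le_max_left _ _) (le_max_left _ _)) hn
  have a2 : 2 ^ (max 4 M) ≤ n := le_trans (le_trans (le_max_right _ _) (le_max_left _ _)) hn
  have a3 : 4096 * k ^ 2 ≤ n := le_trans (le_trans (le_max_left _ _) (le_max_right _ _)) hn
  have a4 : ((3 * k) ^ k) ^ 2 ≤ n := le_trans (le_trans (le_max_right _ _) (le_max_right _ _)) hn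
  obtain ⟨b1, b2, b3⟩ := log_sq a2
  set l : ℕ := Nat.log 2 n with hl
  have hkM : k ≤ M := by rw [hM]; omega
  have hbM : k * k * (k * (4 * c + 24)) * l ≤ n := by
    calc k * k * (k * (4 * c + 24)) * l ≤ M * l := Nat.mul_le_mul_right _ (by rw [hM]; omega)
      _ ≤ n := b1
  set b : ℕ := k * ((4 * c + 24) * l) with hb
  have hkkb : k * k * b ≤ n := by
    calc k * k * b = k * k * (k * (4 * c + 24)) * l := by rw [hb]; ring
      _ ≤ n := hbM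
  have hb0 : 0 < b := by
    rw [hb]
    have : 0 < l := by omega
    positivity
  refine ⟨l, n / b, n / b / k, n / k + 1, ⟨hk, rfl, b2, hkM.trans b3, rfl, rfl, rfl, ?_, a3, a4, ?_,
    hn₁ n a1⟩⟩
  · rw [Nat.div_div_eq_div_mul, Nat.le_div_iff_mul_le (by positivity)]
    calc 1 * (b * k) ≤ k * (b * k) := Nat.mul_le_mul_right _ (by omega)
      _ = k * k * b := by ring
      _ ≤ n := hkkb
  · have : b ≤ n / k := by
      rw [Nat.le_div_iff_mul_le (by omega)]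
      calc b * k ≤ k * (b * k) := Nat.le_mul_of_pos_left _ (by omega)
        _ = k * k * b := by ring
        _ ≤ n := hkkb
    omega

end Pool.Agent.H97.SHL
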