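import Pool.Agent.H97.SHL.Num

/-!
Short lines at the scale of SETH (MP_c62aed_lc): the parameters.
-/

set_option autoImplicit false

namespace Pool.Agent.H97.SHL

open Finset

variable {c k n l m w v : ℕ}

theorem Prm.n16 (hP : Prm c k n l m w v) : 16 ≤ n := by
  have h1 := hP.hl4
  rw [hP.hl] at h1
  have h2 : 2 ^ 4 ≤ n := by
    have h0 : n ≠ 0 := by
      rintro rfl
      simp at h1
    calc 2 ^ 4 ≤ 2 ^ Nat.log 2 n := Nat.pow_le_pow_right (by norm_num) h1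
      _ ≤ n := Nat.pow_log_le_self 2 h0
  simpa using h2

theorem Prm.apos (hP : Prm c k n l m w v) : 0 < (4 * c + 24) * l := by
  have := hP.hl4
  positivity

theorem Prm.bm (hP : Prm c k n l m w v) : m * (k * ((4 * c + 24) * l)) ≤ n := by
  rw [hP.hm]
  exact Nat.div_mul_le_self _ _

theorem Prm.bm' (hP : Prm c k n l m w v) : n < (m + 1) * (k * ((4 * c + 24) * l)) := by
  have hpos : 0 < k * ((4 * c + 24) * l) := Nat.mul_pos (by have := hP.hk; omega) hP.apos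
  rw [hP.hm, Nat.add_mul, one_mul]
  have := Nat.lt_div_mul_add (a := n) hpos
  exact this

theorem Prm.kw (hP : Prm c k n l m w v) : k * w ≤ m := by
  rw [hP.hw]
  exact Nat.mul_div_le _ _

theorem Prm.kw' (hP : Prm c k n l m w v) : m < k * (w + 1) := by
  rw [hP.hw]
  exact Nat.lt_mul_div_succ m (by have := hP.hk; omega)

theorem Prm.w4 (hP : Prm c k n l m w v) : 4 * w ≤ m := by
  have h1 := hP.kw
  have h2 : 4 * w ≤ k * w := Nat.mul_le_mul_right _ hP.hk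
  omega

theorem Prm.mn (hP : Prm c k n l m w v) : m ≤ n := by
  rw [hP.hm]
  exact Nat.div_le_self _ _

/-- `n ≤ (2 ^ l) ^ 2` -/
theorem Prm.n_le (hP : Prm c k n l m w v) : n ≤ (2 ^ l) ^ 2 := by
  have h1 : n < 2 ^ (l + 1) := by
    rw [hP.hl]
    exact Nat.lt_pow_succ_log_self (by norm_num) n
  have h2 := hP.hl4
  calc n ≤ 2 ^ (l + 1) := h1.le
    _ ≤ 2 ^ (l * 2) := Nat.pow_le_pow_right (by norm_num) (by omega)
    _ = (2 ^ l) ^ 2 := by rw [pow_mul]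

/-- `n ^ (2 c + 12) ≤ s` -/
theorem Prm.ns (hP : Prm c k n l m w v) : n ^ (2 * c + 12) ≤ 2 ^ ((4 * c + 24) * l) := by
  calc n ^ (2 * c + 12) ≤ ((2 ^ l) ^ 2) ^ (2 * c + 12) := Nat.pow_le_pow_left hP.n_le _
    _ = 2 ^ ((4 * c + 24) * l) := by
      rw [← pow_mul, ← pow_mul]
      congr 1
      ring

/-- the union bound, exponents -/
theorem ub_exp (n c : ℕ) (hn : 16 ≤ n) :
    4 + 4 * n + (n ^ c + 2) * (n ^ c + 2 * n + 2) + 3 * n + n * (n + 1) + 2 ≤ 30 * n ^ (2 * c + 2) := by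
  have h1 : 1 ≤ n ^ c := Nat.one_le_pow _ _ (by omega)
  have h2 : n ^ (2 * c + 2) = n ^ c * n ^ c * n ^ 2 := by
    rw [← pow_add, ← pow_add]
    congr 1
    ring
  rw [h2]
  generalize n ^ c = t at h1 ⊢
  have e1 : t + 2 ≤ 3 * t := by omega
  have e2 : t + 2 * n + 2 ≤ 3 * (t * n) := by nlinarith
  have e3 : (t + 2) * (t + 2 * n + 2) ≤ 9 * (t * t * n) := by
    calc (t + 2) * (t + 2 * n + 2) ≤ (3 * t) * (3 * (t * n)) := Nat.mul_le_mul e1 e2
      _ = 9 * (t * t * n) := by ring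
  have e4 : t * t * n ≤ t * t * n ^ 2 := Nat.mul_le_mul_left _ (by nlinarith)
  have e5 : 6 + 8 * n + n ^ 2 ≤ 10 * n ^ 2 := by nlinarith
  have e6 : n ^ 2 ≤ t * t * n ^ 2 := Nat.le_mul_of_pos_left _ (by positivity)
  nlinarith

/-- the union bound -/
theorem ub_le {n c q m b : ℕ} (hn : 16 ≤ n) (hbm : m * b ≤ n) (hq : q ≤ n) (hm : m ≤ n) :
    5 * (((2 ^ b : ℕ) : ℝ) ^ m) ^ 4 * (2 * ((2 ^ (n ^ c) : ℕ) : ℝ) + 1) ^ (n ^ c + 2 * n + 2) *
    (((2 ^ b : ℕ) : ℝ) ^ m * 4 ^ m * (q : ℝ) ^ m * m * (2 * Real.exp (-((n : ℝ) ^ (2 * c + 5) / 2))))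
      < 1 := by
  have h2 : ((n : ℕ) : ℝ) ≤ 2 ^ n := by
    have : n ≤ 2 ^ n := Nat.lt_two_pow_self.le
    exact_mod_cast this
  have hB : ((2 ^ b : ℕ) : ℝ) ^ m ≤ 2 ^ n := by
    have : ((2 ^ b : ℕ) : ℝ) ^ m = 2 ^ (m * b) := by
      push_cast
      rw [← pow_mul, mul_comm]
    rw [this]
    exact pow_le_pow_right₀ (by norm_num) hbm
  have hL : 2 * ((2 ^ (n ^ c) : ℕ) : ℝ) + 1 ≤ 2 ^ (n ^ c + 2) := by
    push_cast
    have : (1 : ℝ) ≤ 2 ^ (n ^ c) := one_le_pow₀ (by norm_num)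
    rw [pow_add]
    linarith
  have h4 : (4 : ℝ) ^ m ≤ 2 ^ (2 * n) := by
    rw [show (4 : ℝ) = 2 ^ 2 by norm_num, ← pow_mul]
    exact pow_le_pow_right₀ (by norm_num) (by omega)
  have hq' : (q : ℝ) ^ m * m ≤ 2 ^ (n * (n + 1)) := by
    have e1 : (q : ℝ) ≤ 2 ^ n := le_trans (by exact_mod_cast hq) h2
    have e2 : (m : ℝ) ≤ 2 ^ n := le_trans (by exact_mod_cast hm) h2
    calc (q : ℝ) ^ m * m ≤ (2 ^ n) ^ m * 2 ^ n :=
          mul_le_mul (pow_le_pow_left₀ (Nat.cast_nonneg q) e1 m) e2 (Nat.cast_nonneg m)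
            (by positivity)
      _ = 2 ^ (n * m + n) := by rw [← pow_mul, ← pow_add]
      _ ≤ 2 ^ (n * (n + 1)) := pow_le_pow_right₀ (by norm_num) (by nlinarith)
  set E : ℝ := Real.exp (-((n : ℝ) ^ (2 * c + 5) / 2)) with hE
  have hE0 : 0 < E := Real.exp_pos _
  have hstep : 5 * (((2 ^ b : ℕ) : ℝ) ^ m) ^ 4 *
      (2 * ((2 ^ (n ^ c) : ℕ) : ℝ) + 1) ^ (n ^ c + 2 * n + 2) *
      (((2 ^ b : ℕ) : ℝ) ^ m * 4 ^ m * (q : ℝ) ^ m * m * (2 * E)) ≤
      2 ^ 3 * (2 ^ n) ^ 4 * (2 ^ (n ^ c + 2)) ^ (n ^ c + 2 * n + 2) *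
      (2 ^ n * 2 ^ (2 * n) * 2 ^ (n * (n + 1)) * (2 * E)) := by
    have hA : 5 * (((2 ^ b : ℕ) : ℝ) ^ m) ^ 4 ≤ 2 ^ 3 * (2 ^ n) ^ 4 :=
      mul_le_mul (by norm_num) (pow_le_pow_left₀ (by positivity) hB 4) (by positivity)
        (by positivity)
    have hA2 : (2 * ((2 ^ (n ^ c) : ℕ) : ℝ) + 1) ^ (n ^ c + 2 * n + 2) ≤
        (2 ^ (n ^ c + 2)) ^ (n ^ c + 2 * n + 2) := pow_le_pow_left₀ (by positivity) hL _
    have hA3 : ((2 ^ b : ℕ) : ℝ) ^ m * 4 ^ m ≤ 2 ^ n * 2 ^ (2 * n) :=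
      mul_le_mul hB h4 (by positivity) (by positivity)
    have hA4 : ((2 ^ b : ℕ) : ℝ) ^ m * 4 ^ m * (q : ℝ) ^ m * m ≤
        2 ^ n * 2 ^ (2 * n) * 2 ^ (n * (n + 1)) := by
      calc ((2 ^ b : ℕ) : ℝ) ^ m * 4 ^ m * (q : ℝ) ^ m * m =
            (((2 ^ b : ℕ) : ℝ) ^ m * 4 ^ m) * ((q : ℝ) ^ m * m) := by ring
        _ ≤ (2 ^ n * 2 ^ (2 * n)) * 2 ^ (n * (n + 1)) :=
          mul_le_mul hA3 hq' (by positivity) (by positivity)
    exact mul_le_mul (mul_le_mul hA hA2 (by positivity) (by positivity))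
      (mul_le_mul_of_nonneg_right hA4 (by positivity)) (by positivity) (by positivity)
  have hpow : (2 : ℝ) ^ 3 * (2 ^ n) ^ 4 * (2 ^ (n ^ c + 2)) ^ (n ^ c + 2 * n + 2) *
      (2 ^ n * 2 ^ (2 * n) * 2 ^ (n * (n + 1)) * (2 * E)) =
      2 ^ (4 + 4 * n + (n ^ c + 2) * (n ^ c + 2 * n + 2) + 3 * n + n * (n + 1)) * E := by
    rw [← pow_mul, ← pow_mul]
    have : (2 : ℝ) ^ (4 + 4 * n + (n ^ c + 2) * (n ^ c + 2 * n + 2) + 3 * n + n * (n + 1)) =
        2 ^ 3 * 2 ^ (n * 4) * 2 ^ ((n ^ c + 2) * (n ^ c + 2 * n + 2)) *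
        (2 ^ n * 2 ^ (2 * n) * 2 ^ (n * (n + 1)) * 2) := by
      rw [show 4 + 4 * n + (n ^ c + 2) * (n ^ c + 2 * n + 2) + 3 * n + n * (n + 1) =
        3 + n * 4 + (n ^ c + 2) * (n ^ c + 2 * n + 2) + (n + 2 * n + n * (n + 1) + 1) by ring]
      rw [pow_add, pow_add, pow_add, pow_add, pow_add, pow_add, pow_one]
    rw [this]
    ring
  have hexp := ub_exp n c hn
  have hfin : (2 : ℝ) ^ (4 + 4 * n + (n ^ c + 2) * (n ^ c + 2 * n + 2) + 3 * n + n * (n + 1)) * E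
      < 1 := by
    have h5 : (2 : ℝ) ^ (4 + 4 * n + (n ^ c + 2) * (n ^ c + 2 * n + 2) + 3 * n + n * (n + 1)) ≤
        2 ^ (30 * n ^ (2 * c + 2)) := pow_le_pow_right₀ (by norm_num) (by omega)
    have h6 : (2 : ℝ) ^ (30 * n ^ (2 * c + 2)) < Real.exp ((n : ℝ) ^ (2 * c + 5) / 2) := by
      have h7 : (2 : ℝ) ≤ Real.exp 1 := by
        have := Real.add_one_le_exp (1 : ℝ)
        linarith
      calc (2 : ℝ) ^ (30 * n ^ (2 * c + 2)) ≤ (Real.exp 1) ^ (30 * n ^ (2 * c + 2)) :=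
            pow_le_pow_left₀ (by norm_num) h7 _
        _ = Real.exp ((30 * n ^ (2 * c + 2) : ℕ) : ℝ) := by
            rw [← Real.exp_nat_mul, mul_one]
        _ < Real.exp ((n : ℝ) ^ (2 * c + 5) / 2) := by
            apply Real.exp_lt_exp.2
            push_cast
            have e1 : (n : ℝ) ^ (2 * c + 5) = (n : ℝ) ^ (2 * c + 2) * (n : ℝ) ^ 3 := by
              rw [← pow_add]
            rw [e1]
            have e2 : (0 : ℝ) < (n : ℝ) ^ (2 * c + 2) := by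
              have : (0 : ℝ) < n := by
                have : 0 < n := by omega
                exact_mod_cast this
              positivity
            have e3 : (16 : ℝ) ≤ n := by exact_mod_cast hn
            have e4 : (4096 : ℝ) ≤ (n : ℝ) ^ 3 := by
              calc (4096 : ℝ) = 16 ^ 3 := by norm_num
                _ ≤ (n : ℝ) ^ 3 := pow_le_pow_left₀ (by norm_num) e3 3
            nlinarith
    calc (2 : ℝ) ^ (4 + 4 * n + (n ^ c + 2) * (n ^ c + 2 * n + 2) + 3 * n + n * (n + 1)) * E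
        ≤ 2 ^ (30 * n ^ (2 * c + 2)) * E := mul_le_mul_of_nonneg_right h5 hE0.le
      _ < Real.exp ((n : ℝ) ^ (2 * c + 5) / 2) * E := mul_lt_mul_of_pos_right h6 hE0
      _ = 1 := by
        rw [hE, ← Real.exp_add]
        simp
  calc _ ≤ _ := hstep
    _ = _ := hpow
    _ < 1 := hfin

/-- the parameters satisfy all conditions -/
theorem par_of_prm (hP : Prm c k n l m w v) :
    Par m (2 ^ (k * ((4 * c + 24) * l))) (m - w) (m - 2 * w) (m - 3 * w) w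
      (2 ^ ((4 * c + 24) * l)) k (n ^ c) (n ^ c + 2 * n) (2 ^ (n ^ c)) (1 / (64 * k * n))
      ((n : ℝ) ^ (2 * c + 5)) := by
  have hw4 := hP.w4
  have hw1 := hP.hw1
  have hk4 := hP.hk
  have hn := hP.n16
  have hkr : (4 : ℝ) ≤ k := by exact_mod_cast hk4
  have hnr : (16 : ℝ) ≤ n := by exact_mod_cast hn
  have hk0 : (0 : ℝ) < k := by linarith
  have hn0 : (0 : ℝ) < n := by linarith
  have hkn : (1 : ℝ) ≤ 64 * k * n := by nlinarith
  refine ⟨Nat.one_le_two_pow, by omega, by omega, by omega, ?_, ?_, by omega, ?_, by positivity, ?_,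
    by positivity, ?_, ?_, ?_, ?_⟩
  · calc n ^ c < n ^ (2 * c + 12) := Nat.pow_lt_pow_right (by omega) (by omega)
      _ ≤ _ := hP.ns
  · exact Nat.pow_le_pow_right (by norm_num) (Nat.le_mul_of_pos_left _ (by omega))
  · intro t ht
    have h1 := hP.kw'
    have h2 : w + 1 ≤ m - w - t := by omega
    calc m - w ≤ k * (w + 1) := by omega
      _ ≤ k * (m - w - t) := Nat.mul_le_mul_left _ h2
  · rw [div_le_one (by positivity)]
    exact hkn
  · -- `q ^ 2 Λ ≤ τ ^ 2 s`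
    have h1 : ((m - w : ℕ) : ℝ) ≤ n := by
      have : m - w ≤ n := by have := hP.mn; omega
      exact_mod_cast this
    have h2 : (n : ℝ) ^ (2 * c + 12) ≤ ((2 ^ ((4 * c + 24) * l) : ℕ) : ℝ) := by
      exact_mod_cast hP.ns
    have h3 : (4096 : ℝ) * k ^ 2 ≤ n := by exact_mod_cast hP.hkk
    have h4 : ((m - w : ℕ) : ℝ) ^ 2 * (n : ℝ) ^ (2 * c + 5) ≤ (n : ℝ) ^ (2 * c + 7) := by
      calc ((m - w : ℕ) : ℝ) ^ 2 * (n : ℝ) ^ (2 * c + 5) ≤ (n : ℝ) ^ 2 * (n : ℝ) ^ (2 * c + 5) :=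
            mul_le_mul_of_nonneg_right (pow_le_pow_left₀ (Nat.cast_nonneg _) h1 2) (by positivity)
        _ = (n : ℝ) ^ (2 * c + 7) := by rw [← pow_add]; congr 1; ring
    refine h4.trans ?_
    rw [div_pow, one_pow, one_div, inv_mul_eq_div, le_div_iff₀ (by positivity)]
    calc (n : ℝ) ^ (2 * c + 7) * (64 * k * n) ^ 2 = (4096 * k ^ 2) * (n : ℝ) ^ (2 * c + 9) := by
          ring
      _ ≤ n * (n : ℝ) ^ (2 * c + 9) := mul_le_mul_of_nonneg_right h3 (by positivity)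
      _ = (n : ℝ) ^ (2 * c + 10) := by ring
      _ ≤ (n : ℝ) ^ (2 * c + 12) := pow_le_pow_right₀ (by linarith) (by omega)
      _ ≤ _ := h2
  · -- `(1 + 2 k τ) ^ m ≤ 17 / 16`
    have h1 : 1 + 2 * (k : ℝ) * (1 / (64 * k * n)) = 1 + 1 / (32 * n) := by
      field_simp
      ring
    rw [h1]
    have h2 : (1 + 1 / (32 * (n : ℝ))) ^ m ≤ Real.exp (1 / 32) := by
      calc (1 + 1 / (32 * (n : ℝ))) ^ m ≤ (Real.exp (1 / (32 * (n : ℝ)))) ^ m := by
            apply pow_le_pow_left₀ (by positivity)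
            have := Real.add_one_le_exp (1 / (32 * (n : ℝ)))
            linarith
        _ = Real.exp (m * (1 / (32 * (n : ℝ)))) := by rw [← Real.exp_nat_mul]
        _ ≤ Real.exp (1 / 32) := by
            apply Real.exp_le_exp.2
            have h3 : (m : ℝ) ≤ n := by exact_mod_cast hP.mn
            rw [mul_one_div, div_le_div_iff₀ (by positivity) (by norm_num)]
            linarith
    have h4 : Real.exp (1 / 32 : ℝ) ≤ 17 / 16 := by
      have h5 := Real.add_one_le_exp (-(1 / 32 : ℝ))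
      have h6 : Real.exp (1 / 32 : ℝ) * Real.exp (-(1 / 32 : ℝ)) = 1 := by
        rw [← Real.exp_add]
        simp
      have h7 := Real.exp_pos (1 / 32 : ℝ)
      nlinarith
    exact h2.trans h4
  · -- `(1 + 2 k) ^ m τ ^ w ≤ 1 / 16`
    set A : ℝ := (3 * (k : ℝ)) ^ k with hA
    have hA1 : 1 ≤ A := one_le_pow₀ (by linarith)
    have hAn : A ^ 2 ≤ n := by
      have h0 := hP.hA
      have h00 : ((((3 * k) ^ k) ^ 2 : ℕ) : ℝ) ≤ n := by exact_mod_cast h0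
      rw [hA]
      push_cast at h00
      exact h00
    have h1 : (1 + 2 * (k : ℝ)) ^ m ≤ A ^ (w + 1) := by
      calc (1 + 2 * (k : ℝ)) ^ m ≤ (3 * (k : ℝ)) ^ m :=
            pow_le_pow_left₀ (by positivity) (by linarith) m
        _ ≤ (3 * (k : ℝ)) ^ (k * (w + 1)) := pow_le_pow_right₀ (by linarith) hP.kw'.le
        _ = A ^ (w + 1) := by rw [hA, pow_mul]
    have h2 : A * (1 / (64 * k * n)) ≤ 1 / 64 / A := by
      rw [mul_one_div, div_div, div_le_div_iff₀ (by positivity) (by positivity)]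
      have e1 : A * (64 * A) = 64 * A ^ 2 := by ring
      rw [e1]
      nlinarith
    have h3 : (A * (1 / (64 * k * n))) ^ w ≤ 1 / 64 / A := by
      have h4 : A * (1 / (64 * (k : ℝ) * n)) ≤ 1 := by
        refine h2.trans ?_
        rw [div_le_one (by positivity)]
        linarith
      calc (A * (1 / (64 * (k : ℝ) * n))) ^ w ≤ (A * (1 / (64 * (k : ℝ) * n))) ^ 1 :=
            pow_le_pow_of_le_one (by positivity) h4 hw1
        _ = A * (1 / (64 * (k : ℝ) * n)) := pow_one _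
        _ ≤ 1 / 64 / A := h2
    calc (1 + 2 * (k : ℝ)) ^ m * (1 / (64 * k * n)) ^ w
        ≤ A ^ (w + 1) * (1 / (64 * k * n)) ^ w := mul_le_mul_of_nonneg_right h1 (by positivity)
      _ = A * (A * (1 / (64 * k * n))) ^ w := by rw [mul_pow, pow_succ]; ring
      _ ≤ A * (1 / 64 / A) := mul_le_mul_of_nonneg_left h3 (by positivity)
      _ = 1 / 64 := by field_simp
      _ ≤ 1 / 16 := by norm_num
  · have := ub_le (n := n) (c := c) (q := m - w) (m := m) (b := k * ((4 * c + 24) * l)) hn hP.bm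
      (by have := hP.mn; omega) hP.mn
    exact this

end Pool.Agent.H97.SHL
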