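import Pool.Agent.H97.SHL.Stmt

/-!
Short lines at the scale of SETH (MP_c62aed_lc): the uniform statement.
-/

set_option autoImplicit false

namespace Pool.Agent.H97.SHL

open Finset

/-- The final statement. -/
def MainU : Prop :=
  ∀ ε : ℝ, 0 < ε → ∃ C : ℕ, ∀ n t : ℕ, C ≤ n → n ≤ t → C * Nat.log 2 t ≤ n →
    ∀ 𝓛 : Finset (Line n), 𝓛.card ≤ 2 ^ t → ∃ F : CNF n,
      F.card ≤ t ^ C ∧ (∀ D ∈ F, D.card ≤ C * Nat.log 2 t) ∧ (∀ x, ∃ D ∈ F, Falsified D x) ∧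
      (∀ s : ℕ, Tree F 𝓛 t ∅ s → (2 : ℝ) ^ ((1 - ε) * n) ≤ s) ∧
      (∀ d s : ℕ, d ≤ t → Branch F 𝓛 t Set.univ d s → (2 : ℝ) ^ ((1 - ε) * n) ≤ s) ∧
      (∀ (T : ℕ) (M : ℕ → Line n), Scan F 𝓛 t T M → (2 : ℝ) ^ ((1 - ε) * n) ≤ T) ∧
      ∀ (S r : ℕ) (L : ℕ → Line n) (h : ℕ → ℕ), Refutes F 𝓛 t S r L h →
        (∀ ρ : ℝ, 0 ≤ ρ → (h r : ℝ) ≤ (1 + ρ) * n → (2 : ℝ) ^ ((1 - ρ - ε) * n) ≤ S) ∧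
        ∀ K : ℝ, 1 ≤ K → (h r : ℝ) ≤ K * n → (2 : ℝ) ^ ((1 / (2 * K - 1) - ε) * n) ≤ S

end Pool.Agent.H97.SHL
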