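import Pool.Agent.H97.SHL.Targets
import Pool.Agent.H97.SHL.StmtU

/-!
Short lines at the scale of SETH (MP_c62aed_lc): numbers.
-/

set_option autoImplicit false

namespace Pool.Agent.H97.SHL.U

open Finset Pool.Agent.H97.SHL

/-- logarithms are small -/
theorem log_sq {n M : ℕ} (hn : 2 ^ (max 4 M) ≤ n) : 4 ≤ Nat.log 2 n ∧ M ≤ Nat.log 2 n := by
  have h1 : max 4 M ≤ Nat.log 2 n := Nat.le_log_of_pow_le (by norm_num) hn
  exact ⟨le_trans (le_max_left _ _) h1, le_trans (le_max_right _ _) h1⟩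

/-- the exponents -/
theorem expo {K : ℝ} (hK : 1 ≤ K) : 1 ≤ ⌊2 * K - 1⌋₊ ∧ (⌊2 * K - 1⌋₊ : ℝ) * (1 / (2 * K - 1)) ≤ 1 ∧
    (⌊2 * K - 1⌋₊ : ℝ) * (⌊2 * K - 1⌋₊ + 1) * (1 / (2 * K - 1)) ≤ 2 * (⌊2 * K - 1⌋₊ + 1 - K) := by
  have hu : 1 ≤ 2 * K - 1 := by linarith
  have h1 : (⌊2 * K - 1⌋₊ : ℝ) ≤ 2 * K - 1 := Nat.floor_le (by linarith)
  have h2 : 2 * K - 1 < ⌊2 * K - 1⌋₊ + 1 := Nat.lt_floor_add_one _
  refine ⟨Nat.le_floor (by exact_mod_cast hu), ?_, ?_⟩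
  · rw [mul_one_div, div_le_one (by linarith)]
    exact h1
  · rw [mul_one_div, div_le_iff₀ (by linarith)]
    set R : ℝ := (⌊2 * K - 1⌋₊ : ℝ)
    nlinarith [mul_nonneg (sub_nonneg.2 h1) (sub_nonneg.2 h2.le)]

/-- numbers: the dag-like case -/
theorem num_dag {ε κ K n θ M : ℝ} {R : ℕ} (hε : 0 < ε) (hn : 0 < n) (hR : 1 ≤ R)
    (hκ : (R : ℝ) * (R + 1) * κ ≤ 2 * (R + 1 - K)) (hθ : θ ≤ ε * n / 8)
    (hM : M ≤ (κ - 7 / 8 * ε) * n)
    (h : 2 * ((R : ℝ) + 1) * n ≤ 2 * (K * n) + 2 * ((R : ℝ) + 1) * θ + R * (R + 1) * M) :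
    False := by
  have hR' : (1 : ℝ) ≤ R := by exact_mod_cast hR
  have h1 : (R : ℝ) * (R + 1) * M ≤ (R : ℝ) * (R + 1) * ((κ - 7 / 8 * ε) * n) :=
    mul_le_mul_of_nonneg_left hM (by positivity)
  have h2 : (R : ℝ) * (R + 1) * κ * n ≤ 2 * (R + 1 - K) * n :=
    mul_le_mul_of_nonneg_right hκ hn.le
  have h3 : 2 * ((R : ℝ) + 1) * θ ≤ 2 * ((R : ℝ) + 1) * (ε * n / 8) :=
    mul_le_mul_of_nonneg_left hθ (by positivity)
  have h4 : 0 < ε * n := mul_pos hε hn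
  have h5 : 0 ≤ ((R : ℝ) + 1) * (ε * n) * (R - 1) :=
    mul_nonneg (by positivity) (by linarith)
  have h6 : 0 < ((R : ℝ) + 1) * (ε * n) := by positivity
  nlinarith

theorem num_e {R κ ε n M : ℝ} (hR : 1 ≤ R) (hε : 0 ≤ ε) (hn : 0 ≤ n) (hRκ : R * κ ≤ 1)
    (hM : M ≤ (κ - 7 / 8 * ε) * n) : R * M ≤ n - ε * n / 8 := by
  have h2 : R * M ≤ R * ((κ - 7 / 8 * ε) * n) := mul_le_mul_of_nonneg_left hM (by linarith)
  have h3 : R * κ * n ≤ 1 * n := mul_le_mul_of_nonneg_right hRκ hn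
  have h4 : 0 ≤ ε * n := by positivity
  have h5 : R * ((κ - 7 / 8 * ε) * n) = R * κ * n - 7 / 8 * (R * (ε * n)) := by ring
  have h6 : ε * n ≤ R * (ε * n) := le_mul_of_one_le_left h4 hR
  linarith

/-- the parameters for given `n`, `t` -/
structure Prm (k n t l m w v : ℕ) : Prop where
  hk : 4 ≤ k
  hl : l = Nat.log 2 t
  hl4 : 4 ≤ l
  hkl : k ≤ l
  hnt : n ≤ t
  hn16 : 16 ≤ n
  hm : m = n / (k * (24 * l))
  hw : w = m / k
  hv : v = n / k + 1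
  hw1 : 1 ≤ w
  hkk : 4096 * k ^ 2 ≤ n
  hA : ((3 * k) ^ k) ^ 2 ≤ n
  hb : k * (24 * l) ≤ v
  hnn : (n + 1) ^ 2 ≤ 2 ^ v

theorem pow_four (j : ℕ) (hj : 16 ≤ j) : j ^ 4 ≤ 2 ^ j := by
  induction j, hj using Nat.le_induction with
  | base => norm_num
  | succ j hj ih =>
    rw [pow_succ 2 j]
    have e1 : (j + 1) ^ 4 ≤ j ^ 4 * 2 := by
      have : (j + 1) ^ 4 = j ^ 4 + 4 * j ^ 3 + 6 * j ^ 2 + 4 * j + 1 := by ring
      rw [this]
      have e2 : 16 * j ^ 3 ≤ j ^ 4 := by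
        calc 16 * j ^ 3 ≤ j * j ^ 3 := Nat.mul_le_mul_right _ hj
          _ = j ^ 4 := by ring
      have e3 : 16 * j ^ 2 ≤ j ^ 3 := by
        calc 16 * j ^ 2 ≤ j * j ^ 2 := Nat.mul_le_mul_right _ hj
          _ = j ^ 3 := by ring
      have e4 : 16 * j ≤ j ^ 2 := by
        calc 16 * j ≤ j * j := Nat.mul_le_mul_right _ hj
          _ = j ^ 2 := by ring
      omega
    exact e1.trans (Nat.mul_le_mul_right _ ih)

theorem sq_small (k : ℕ) (hk : 4 ≤ k) : ∃ n₁ : ℕ, ∀ n : ℕ, n₁ ≤ n →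
    (n + 1) ^ 2 ≤ 2 ^ (n / k + 1) := by
  refine ⟨k * (k + 16), fun n hn => ?_⟩
  set j : ℕ := n / k with hj
  have hkpos : 0 < k := by omega
  have hj1 : k + 16 ≤ j := by
    rw [hj, Nat.le_div_iff_mul_le hkpos]
    calc (k + 16) * k = k * (k + 16) := by ring
      _ ≤ n := hn
  have hn2 : n + 1 ≤ k * (j + 1) := Nat.lt_mul_div_succ n hkpos
  have h4 : n + 1 ≤ (j + 1) ^ 2 := by
    calc n + 1 ≤ k * (j + 1) := hn2
      _ ≤ (j + 1) * (j + 1) := Nat.mul_le_mul_right _ (by omega)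
      _ = (j + 1) ^ 2 := by ring
  calc (n + 1) ^ 2 ≤ ((j + 1) ^ 2) ^ 2 := Nat.pow_le_pow_left h4 2
    _ = (j + 1) ^ 4 := by ring
    _ ≤ 2 ^ (j + 1) := pow_four _ (by omega)

/-- parameters exist -/
theorem prm_exists (k : ℕ) (hk : 4 ≤ k) : ∃ C : ℕ, ∀ n t : ℕ, C ≤ n → n ≤ t →
    C * Nat.log 2 t ≤ n → ∃ l m w v : ℕ, Prm k n t l m w v := by
  obtain ⟨n₁, hn₁⟩ := sq_small k hk
  refine ⟨max (max n₁ (2 ^ (max 4 k))) (max (max (4096 * k ^ 2) (((3 * k) ^ k) ^ 2))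
    (24 * k ^ 3)), fun n t hn hnt hlog => ?_⟩
  have a1 : n₁ ≤ n := le_trans (le_trans (le_max_left _ _) (le_max_left _ _)) hn
  have a2 : 2 ^ (max 4 k) ≤ n := le_trans (le_trans (le_max_right _ _) (le_max_left _ _)) hn
  have a3 : 4096 * k ^ 2 ≤ n :=
    le_trans (le_trans (le_trans (le_max_left _ _) (le_max_left _ _)) (le_max_right _ _)) hn
  have a4 : ((3 * k) ^ k) ^ 2 ≤ n :=
    le_trans (le_trans (le_trans (le_max_right _ _) (le_max_left _ _)) (le_max_right _ _)) hn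
  have a5 : 24 * k ^ 3 * Nat.log 2 t ≤ n := le_trans
    (Nat.mul_le_mul_right _ (le_trans (le_max_right _ _) (le_max_right _ _))) hlog
  obtain ⟨b2, b3⟩ := log_sq (a2.trans hnt)
  set l : ℕ := Nat.log 2 t with hl
  set b : ℕ := k * (24 * l) with hb
  have hkkb : k * k * b ≤ n := by
    calc k * k * b = 24 * k ^ 3 * l := by rw [hb]; ring
      _ ≤ n := a5
  have hb0 : 0 < b := by
    rw [hb]
    have : 0 < l := by omega
    positivity
  refine ⟨l, n / b, n / b / k, n / k + 1, ⟨hk, rfl, b2, b3, hnt, ?_, rfl, rfl, rfl, ?_, a3, a4, ?_,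
    hn₁ n a1⟩⟩
  · calc 16 = 2 ^ 4 := by norm_num
      _ ≤ 2 ^ (max 4 k) := Nat.pow_le_pow_right (by norm_num) (le_max_left _ _)
      _ ≤ n := a2
  · rw [Nat.div_div_eq_div_mul, Nat.le_div_iff_mul_le (by positivity)]
    calc 1 * (b * k) ≤ k * (b * k) := Nat.mul_le_mul_right _ (by omega)
      _ = k * k * b := by ring
      _ ≤ n := hkkb
  · have : b ≤ n / k := by
      rw [Nat.le_div_iff_mul_le (by omega)]
      calc b * k ≤ k * (b * k) := Nat.le_mul_of_pos_left _ (by omega)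
        _ = k * k * b := by ring
        _ ≤ n := hkkb
    omega

variable {k n t l m w v : ℕ}

theorem Prm.apos (hP : Prm k n t l m w v) : 0 < 24 * l := by
  have := hP.hl4
  positivity

theorem Prm.bm (hP : Prm k n t l m w v) : m * (k * (24 * l)) ≤ n := by
  rw [hP.hm]
  exact Nat.div_mul_le_self _ _

theorem Prm.bm' (hP : Prm k n t l m w v) : n < (m + 1) * (k * (24 * l)) := by
  have hpos : 0 < k * (24 * l) := Nat.mul_pos (by have := hP.hk; omega) hP.apos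
  rw [hP.hm, Nat.add_mul, one_mul]
  exact Nat.lt_div_mul_add (a := n) hpos

theorem Prm.kw (hP : Prm k n t l m w v) : k * w ≤ m := by
  rw [hP.hw]
  exact Nat.mul_div_le _ _

theorem Prm.kw' (hP : Prm k n t l m w v) : m < k * (w + 1) := by
  rw [hP.hw]
  exact Nat.lt_mul_div_succ m (by have := hP.hk; omega)

theorem Prm.w4 (hP : Prm k n t l m w v) : 4 * w ≤ m := by
  have h1 := hP.kw
  have h2 : 4 * w ≤ k * w := Nat.mul_le_mul_right _ hP.hk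
  omega

theorem Prm.mn (hP : Prm k n t l m w v) : m ≤ n := by
  rw [hP.hm]
  exact Nat.div_le_self _ _

theorem Prm.t_le (hP : Prm k n t l m w v) : t ≤ (2 ^ l) ^ 2 := by
  have h1 : t < 2 ^ (l + 1) := by
    rw [hP.hl]
    exact Nat.lt_pow_succ_log_self (by norm_num) t
  have h2 := hP.hl4
  calc t ≤ 2 ^ (l + 1) := h1.le
    _ ≤ 2 ^ (l * 2) := Nat.pow_le_pow_right (by norm_num) (by omega)
    _ = (2 ^ l) ^ 2 := by rw [pow_mul]

/-- `t ^ 12 ≤ s` -/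
theorem Prm.ts (hP : Prm k n t l m w v) : t ^ 12 ≤ 2 ^ (24 * l) := by
  calc t ^ 12 ≤ ((2 ^ l) ^ 2) ^ 12 := Nat.pow_le_pow_left hP.t_le _
    _ = 2 ^ (24 * l) := by
      rw [← pow_mul, ← pow_mul]
      congr 1
      ring

/-- the union bound, exponents -/
theorem ub_exp (n t : ℕ) (hn : 16 ≤ n) (hnt : n ≤ t) :
    4 + 4 * n + (t + 2) * (t + 2 * n + 2) + 3 * n + n * (n + 1) + 2 ≤ 30 * t ^ 2 := by
  have e2 : (t + 2) * (t + 2 * n + 2) ≤ 2 * t * (4 * t) := Nat.mul_le_mul (by omega) (by omega)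
  have e3 : n * (n + 1) ≤ t * (t + 1) := Nat.mul_le_mul hnt (by omega)
  nlinarith

/-- the union bound -/
theorem ub_le {n t q m b : ℕ} (hn : 16 ≤ n) (hnt : n ≤ t) (hbm : m * b ≤ n) (hq : q ≤ n)
    (hm : m ≤ n) :
    5 * (((2 ^ b : ℕ) : ℝ) ^ m) ^ 4 * (2 * ((2 ^ t : ℕ) : ℝ) + 1) ^ (t + 2 * n + 2) *
    (((2 ^ b : ℕ) : ℝ) ^ m * 4 ^ m * (q : ℝ) ^ m * m * (2 * Real.exp (-((t : ℝ) ^ 6 / 2))))
      < 1 := by
  have h2 : ((n : ℕ) : ℝ) ≤ 2 ^ n := by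
    have : n ≤ 2 ^ n := Nat.lt_two_pow_self.le
    exact_mod_cast this
  have hB : ((2 ^ b : ℕ) : ℝ) ^ m ≤ 2 ^ n := by
    have : ((2 ^ b : ℕ) : ℝ) ^ m = 2 ^ (m * b) := by
      push_cast
      rw [← pow_mul, mul_comm]
    rw [this]
    exact pow_le_pow_right₀ (by norm_num) hbm
  have hL : 2 * ((2 ^ t : ℕ) : ℝ) + 1 ≤ 2 ^ (t + 2) := by
    push_cast
    have : (1 : ℝ) ≤ 2 ^ t := one_le_pow₀ (by norm_num)
    rw [pow_add]
    linarith
  have h4 : (4 : ℝ) ^ m ≤ 2 ^ (2 * n) := by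
    rw [show (4 : ℝ) = 2 ^ 2 by norm_num, ← pow_mul]
    exact pow_le_pow_right₀ (by norm_num) (by omega)
  have hq' : (q : ℝ) ^ m * m ≤ 2 ^ (n * (n + 1)) := by
    have e1 : (q : ℝ) ≤ 2 ^ n := le_trans (by exact_mod_cast hq) h2
    have e2 : (m : ℝ) ≤ 2 ^ n := le_trans (by exact_mod_cast hm) h2
    calc (q : ℝ) ^ m * m ≤ (2 ^ n) ^ m * 2 ^ n :=
          mul_le_mul (pow_le_pow_left₀ (Nat.cast_nonneg q) e1 m) e2 (Nat.cast_nonneg m)
            (by positivity)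
      _ = 2 ^ (n * m + n) := by rw [← pow_mul, ← pow_add]
      _ ≤ 2 ^ (n * (n + 1)) := pow_le_pow_right₀ (by norm_num) (by nlinarith)
  set E : ℝ := Real.exp (-((t : ℝ) ^ 6 / 2)) with hE
  have hE0 : 0 < E := Real.exp_pos _
  have hstep : 5 * (((2 ^ b : ℕ) : ℝ) ^ m) ^ 4 *
      (2 * ((2 ^ t : ℕ) : ℝ) + 1) ^ (t + 2 * n + 2) *
      (((2 ^ b : ℕ) : ℝ) ^ m * 4 ^ m * (q : ℝ) ^ m * m * (2 * E)) ≤
      2 ^ 3 * (2 ^ n) ^ 4 * (2 ^ (t + 2)) ^ (t + 2 * n + 2) *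
      (2 ^ n * 2 ^ (2 * n) * 2 ^ (n * (n + 1)) * (2 * E)) := by
    have hA : 5 * (((2 ^ b : ℕ) : ℝ) ^ m) ^ 4 ≤ 2 ^ 3 * (2 ^ n) ^ 4 :=
      mul_le_mul (by norm_num) (pow_le_pow_left₀ (by positivity) hB 4) (by positivity)
        (by positivity)
    have hA2 : (2 * ((2 ^ t : ℕ) : ℝ) + 1) ^ (t + 2 * n + 2) ≤
        (2 ^ (t + 2)) ^ (t + 2 * n + 2) := pow_le_pow_left₀ (by positivity) hL _
    have hA3 : ((2 ^ b : ℕ) : ℝ) ^ m * 4 ^ m ≤ 2 ^ n * 2 ^ (2 * n) :=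
      mul_le_mul hB h4 (by positivity) (by positivity)
    have hA4 : ((2 ^ b : ℕ) : ℝ) ^ m * 4 ^ m * (q : ℝ) ^ m * m ≤
        2 ^ n * 2 ^ (2 * n) * 2 ^ (n * (n + 1)) := by
      calc ((2 ^ b : ℕ) : ℝ) ^ m * 4 ^ m * (q : ℝ) ^ m * m =
            (((2 ^ b : ℕ) : ℝ) ^ m * 4 ^ m) * ((q : ℝ) ^ m * m) := by ring
        _ ≤ (2 ^ n * 2 ^ (2 * n)) * 2 ^ (n * (n + 1)) :=
          mul_le_mul hA3 hq' (by positivity) (by positivity)
    exact mul_le_mul (mul_le_mul hA hA2 (by positivity) (by positivity))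
      (mul_le_mul_of_nonneg_right hA4 (by positivity)) (by positivity) (by positivity)
  have hpow : (2 : ℝ) ^ 3 * (2 ^ n) ^ 4 * (2 ^ (t + 2)) ^ (t + 2 * n + 2) *
      (2 ^ n * 2 ^ (2 * n) * 2 ^ (n * (n + 1)) * (2 * E)) =
      2 ^ (4 + 4 * n + (t + 2) * (t + 2 * n + 2) + 3 * n + n * (n + 1)) * E := by
    rw [← pow_mul, ← pow_mul]
    have : (2 : ℝ) ^ (4 + 4 * n + (t + 2) * (t + 2 * n + 2) + 3 * n + n * (n + 1)) =
        2 ^ 3 * 2 ^ (n * 4) * 2 ^ ((t + 2) * (t + 2 * n + 2)) *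
        (2 ^ n * 2 ^ (2 * n) * 2 ^ (n * (n + 1)) * 2) := by
      rw [show 4 + 4 * n + (t + 2) * (t + 2 * n + 2) + 3 * n + n * (n + 1) =
        3 + n * 4 + (t + 2) * (t + 2 * n + 2) + (n + 2 * n + n * (n + 1) + 1) by ring]
      rw [pow_add, pow_add, pow_add, pow_add, pow_add, pow_add, pow_one]
    rw [this]
    ring
  have hexp := ub_exp n t hn hnt
  have hfin : (2 : ℝ) ^ (4 + 4 * n + (t + 2) * (t + 2 * n + 2) + 3 * n + n * (n + 1)) * E
      < 1 := by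
    have h5 : (2 : ℝ) ^ (4 + 4 * n + (t + 2) * (t + 2 * n + 2) + 3 * n + n * (n + 1)) ≤
        2 ^ (30 * t ^ 2) := pow_le_pow_right₀ (by norm_num) (by omega)
    have h6 : (2 : ℝ) ^ (30 * t ^ 2) < Real.exp ((t : ℝ) ^ 6 / 2) := by
      have h7 : (2 : ℝ) ≤ Real.exp 1 := by
        have := Real.add_one_le_exp (1 : ℝ)
        linarith
      calc (2 : ℝ) ^ (30 * t ^ 2) ≤ (Real.exp 1) ^ (30 * t ^ 2) :=
            pow_le_pow_left₀ (by norm_num) h7 _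
        _ = Real.exp ((30 * t ^ 2 : ℕ) : ℝ) := by
            rw [← Real.exp_nat_mul, mul_one]
        _ < Real.exp ((t : ℝ) ^ 6 / 2) := by
            apply Real.exp_lt_exp.2
            push_cast
            have e1 : (t : ℝ) ^ 6 = (t : ℝ) ^ 2 * (t : ℝ) ^ 4 := by
              rw [← pow_add]
            rw [e1]
            have e3 : (16 : ℝ) ≤ t := by exact_mod_cast hn.trans hnt
            have e2 : (0 : ℝ) < (t : ℝ) ^ 2 := by positivity
            have e4 : (4096 : ℝ) ≤ (t : ℝ) ^ 4 := by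
              calc (4096 : ℝ) ≤ 16 ^ 4 := by norm_num
                _ ≤ (t : ℝ) ^ 4 := pow_le_pow_left₀ (by norm_num) e3 4
            nlinarith
    calc (2 : ℝ) ^ (4 + 4 * n + (t + 2) * (t + 2 * n + 2) + 3 * n + n * (n + 1)) * E
        ≤ 2 ^ (30 * t ^ 2) * E := mul_le_mul_of_nonneg_right h5 hE0.le
      _ < Real.exp ((t : ℝ) ^ 6 / 2) * E := mul_lt_mul_of_pos_right h6 hE0
      _ = 1 := by
        rw [hE, ← Real.exp_add]
        simp
  calc _ ≤ _ := hstep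
    _ = _ := hpow
    _ < 1 := hfin

/-- the parameters satisfy all conditions -/
theorem par_of_prm (hP : Prm k n t l m w v) :
    Par m (2 ^ (k * (24 * l))) (m - w) (m - 2 * w) (m - 3 * w) w
      (2 ^ (24 * l)) k t (t + 2 * n) (2 ^ t) (1 / (64 * k * n)) ((t : ℝ) ^ 6) := by
  have hw4 := hP.w4
  have hw1 := hP.hw1
  have hk4 := hP.hk
  have hn := hP.hn16
  have hnt := hP.hnt
  have hkr : (4 : ℝ) ≤ k := by exact_mod_cast hk4
  have hnr : (16 : ℝ) ≤ n := by exact_mod_cast hn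
  have hntr : (n : ℝ) ≤ t := by exact_mod_cast hnt
  have hk0 : (0 : ℝ) < k := by linarith
  have hn0 : (0 : ℝ) < n := by linarith
  have ht0 : (0 : ℝ) < t := by linarith
  have hkn : (1 : ℝ) ≤ 64 * k * n := by nlinarith
  refine ⟨Nat.one_le_two_pow, by omega, by omega, by omega, ?_, ?_, by omega, ?_, by positivity, ?_,
    by positivity, ?_, ?_, ?_, ?_⟩
  · calc t = t ^ 1 := (pow_one t).symm
      _ < t ^ 12 := Nat.pow_lt_pow_right (by omega) (by omega)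
      _ ≤ _ := hP.ts
  · exact Nat.pow_le_pow_right (by norm_num) (Nat.le_mul_of_pos_left _ (by omega))
  · intro u hu
    have h1 := hP.kw'
    have h2 : w + 1 ≤ m - w - u := by omega
    calc m - w ≤ k * (w + 1) := by omega
      _ ≤ k * (m - w - u) := Nat.mul_le_mul_left _ h2
  · rw [div_le_one (by positivity)]
    exact hkn
  · -- `q ^ 2 Λ ≤ τ ^ 2 s`
    have h1 : ((m - w : ℕ) : ℝ) ≤ t := by
      have : m - w ≤ t := by have := hP.mn; omega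
      exact_mod_cast this
    have h2 : (t : ℝ) ^ 12 ≤ ((2 ^ (24 * l) : ℕ) : ℝ) := by
      exact_mod_cast hP.ts
    have h3 : (4096 : ℝ) * k ^ 2 ≤ t := by
      have : (4096 : ℝ) * k ^ 2 ≤ n := by exact_mod_cast hP.hkk
      linarith
    have h4 : ((m - w : ℕ) : ℝ) ^ 2 * (t : ℝ) ^ 6 ≤ (t : ℝ) ^ 8 := by
      calc ((m - w : ℕ) : ℝ) ^ 2 * (t : ℝ) ^ 6 ≤ (t : ℝ) ^ 2 * (t : ℝ) ^ 6 :=
            mul_le_mul_of_nonneg_right (pow_le_pow_left₀ (Nat.cast_nonneg _) h1 2) (by positivity)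
        _ = (t : ℝ) ^ 8 := by rw [← pow_add]
    refine h4.trans ?_
    rw [div_pow, one_pow, one_div, inv_mul_eq_div, le_div_iff₀ (by positivity)]
    have h5 : (64 * (k : ℝ) * (n : ℝ)) ^ 2 ≤ (t : ℝ) ^ 3 := by
      calc (64 * (k : ℝ) * (n : ℝ)) ^ 2 = (4096 * (k : ℝ) ^ 2) * (n : ℝ) ^ 2 := by ring
        _ ≤ (t : ℝ) * (t : ℝ) ^ 2 :=
            mul_le_mul h3 (pow_le_pow_left₀ hn0.le hntr 2) (by positivity) ht0.le
        _ = (t : ℝ) ^ 3 := by ring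
    calc (t : ℝ) ^ 8 * (64 * k * n) ^ 2 ≤ (t : ℝ) ^ 8 * t ^ 3 :=
          mul_le_mul_of_nonneg_left h5 (by positivity)
      _ = (t : ℝ) ^ 11 := by rw [← pow_add]
      _ ≤ (t : ℝ) ^ 12 := pow_le_pow_right₀ (by linarith) (by omega)
      _ ≤ _ := h2
  · -- `(1 + 2 k τ) ^ m ≤ 17 / 16`
    have h1 : 1 + 2 * (k : ℝ) * (1 / (64 * k * n)) = 1 + 1 / (32 * n) := by
      field_simp
      ring
    rw [h1]
    have h2 : (1 + 1 / (32 * (n : ℝ))) ^ m ≤ Real.exp (1 / 32) := by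
      calc (1 + 1 / (32 * (n : ℝ))) ^ m ≤ (Real.exp (1 / (32 * (n : ℝ)))) ^ m := by
            apply pow_le_pow_left₀ (by positivity)
            have := Real.add_one_le_exp (1 / (32 * (n : ℝ)))
            linarith
        _ = Real.exp (m * (1 / (32 * (n : ℝ)))) := by rw [← Real.exp_nat_mul]
        _ ≤ Real.exp (1 / 32) := by
            apply Real.exp_le_exp.2
            have h3 : (m : ℝ) ≤ n := by exact_mod_cast hP.mn
            rw [mul_one_div, div_le_div_iff₀ (by positivity) (by norm_num)]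
            linarith
    have h4 : Real.exp (1 / 32 : ℝ) ≤ 17 / 16 := by
      have h5 := Real.add_one_le_exp (-(1 / 32 : ℝ))
      have h6 : Real.exp (1 / 32 : ℝ) * Real.exp (-(1 / 32 : ℝ)) = 1 := by
        rw [← Real.exp_add]
        simp
      have h7 := Real.exp_pos (1 / 32 : ℝ)
      nlinarith
    exact h2.trans h4
  · -- `(1 + 2 k) ^ m τ ^ w ≤ 1 / 16`
    set A : ℝ := (3 * (k : ℝ)) ^ k with hA
    have hA1 : 1 ≤ A := one_le_pow₀ (by linarith)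
    have hAn : A ^ 2 ≤ n := by
      have h0 := hP.hA
      have h00 : ((((3 * k) ^ k) ^ 2 : ℕ) : ℝ) ≤ n := by exact_mod_cast h0
      rw [hA]
      push_cast at h00
      exact h00
    have h1 : (1 + 2 * (k : ℝ)) ^ m ≤ A ^ (w + 1) := by
      calc (1 + 2 * (k : ℝ)) ^ m ≤ (3 * (k : ℝ)) ^ m :=
            pow_le_pow_left₀ (by positivity) (by linarith) m
        _ ≤ (3 * (k : ℝ)) ^ (k * (w + 1)) := pow_le_pow_right₀ (by linarith) hP.kw'.le
        _ = A ^ (w + 1) := by rw [hA, pow_mul]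
    have h2 : A * (1 / (64 * k * n)) ≤ 1 / 64 / A := by
      rw [mul_one_div, div_div, div_le_div_iff₀ (by positivity) (by positivity)]
      have e1 : A * (64 * A) = 64 * A ^ 2 := by ring
      rw [e1]
      nlinarith
    have h3 : (A * (1 / (64 * k * n))) ^ w ≤ 1 / 64 / A := by
      have h4 : A * (1 / (64 * (k : ℝ) * n)) ≤ 1 := by
        refine h2.trans ?_
        rw [div_le_one (by positivity)]
        linarith
      calc (A * (1 / (64 * (k : ℝ) * n))) ^ w ≤ (A * (1 / (64 * (k : ℝ) * n))) ^ 1 :=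
            pow_le_pow_of_le_one (by positivity) h4 hw1
        _ = A * (1 / (64 * (k : ℝ) * n)) := pow_one _
        _ ≤ 1 / 64 / A := h2
    calc (1 + 2 * (k : ℝ)) ^ m * (1 / (64 * k * n)) ^ w
        ≤ A ^ (w + 1) * (1 / (64 * k * n)) ^ w := mul_le_mul_of_nonneg_right h1 (by positivity)
      _ = A * (A * (1 / (64 * k * n))) ^ w := by rw [mul_pow, pow_succ]; ring
      _ ≤ A * (1 / 64 / A) := mul_le_mul_of_nonneg_left h3 (by positivity)
      _ = 1 / 64 := by field_simp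
      _ ≤ 1 / 16 := by norm_num
  · exact ub_le (n := n) (t := t) (q := m - w) (m := m) (b := k * (24 * l)) hn hnt hP.bm
      (by have := hP.mn; omega) hP.mn

end Pool.Agent.H97.SHL.U
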