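import Mathlib

/-!
Short lines at the scale of SETH (MP_c62aed_lc): the definitions used by the statement.
-/

set_option autoImplicit false

namespace Pool.Agent.H97.SHL

open Finset

/-- A CNF formula with the variables `x_i`, `i : Fin n`: a finite set of clauses, each clause is a
finite set of literals. The literal `(i, s)` is true when the variable `x_i` has the value `s`. -/
abbrev CNF (n : ℕ) : Type := Finset (Finset (Fin n × Bool))

/-- All literals of the clause `C` are false under `x`. -/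
def Falsified {n : ℕ} (C : Finset (Fin n × Bool)) (x : Fin n → Bool) : Prop :=
  ∀ l ∈ C, x l.1 ≠ l.2

/-- A line is an arbitrary Boolean function of the assignment, given as the set of the assignments
which satisfy it. -/
abbrev Line (n : ℕ) : Type := Set (Fin n → Bool)

/-- At every assignment of `Q` one of at most `q` clauses of `F` is false. -/
def Leaf {n : ℕ} (F : CNF n) (q : ℕ) (Q : Set (Fin n → Bool)) : Prop :=
  ∃ G : CNF n, G ⊆ F ∧ G.card ≤ q ∧ ∀ x ∈ Q, ∃ C ∈ G, Falsified C x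

/-- The lines `L 0, .., L (S - 1)`, all of them in the family `𝓛`, form a refutation of `F`: every
line follows from at most `q` clauses of `F`, or from one earlier line, or from two earlier lines;
the line `L r` is the contradiction. The number `h i` bounds the number of the inferences with two
premises on every path which leads from the line `i` to an axiom. -/
structure Refutes {n : ℕ} (F : CNF n) (𝓛 : Finset (Line n)) (q S r : ℕ) (L : ℕ → Line n)
    (h : ℕ → ℕ) : Prop where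
  lt : r < S
  empty : L r = ∅
  mem : ∀ i, i < S → L i ∈ 𝓛
  step : ∀ i, i < S → Leaf F q (L i)ᶜ ∨
    (∃ j, j < i ∧ h j ≤ h i ∧ L j ⊆ L i) ∨
    ∃ j k, j < i ∧ k < i ∧ h j + 1 ≤ h i ∧ h k + 1 ≤ h i ∧ L j ∩ L k ⊆ L i

/-- `Tree F 𝓛 q L s`: the line `L` has a tree-like derivation with `s` lines, all of them in `𝓛`,
with the same axioms and inferences. -/
inductive Tree {n : ℕ} (F : CNF n) (𝓛 : Finset (Line n)) (q : ℕ) : Line n → ℕ → Prop
  | ax (L : Line n) : L ∈ 𝓛 → Leaf F q Lᶜ → Tree F 𝓛 q L 1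
  | weak (L L' : Line n) (s : ℕ) : L ∈ 𝓛 → Tree F 𝓛 q L' s → L' ⊆ L → Tree F 𝓛 q L (s + 1)
  | res (L L₁ L₂ : Line n) (s₁ s₂ : ℕ) : L ∈ 𝓛 → Tree F 𝓛 q L₁ s₁ → Tree F 𝓛 q L₂ s₂ →
      L₁ ∩ L₂ ⊆ L → Tree F 𝓛 q L (s₁ + s₂ + 1)

/-- `Branch F 𝓛 q Q t s`: a decision tree of depth at most `t` with `s` leaves, which branches on
the values of Boolean functions of the family `𝓛`, started on the set `Q` of assignments; at every
leaf at most `q` clauses of `F` exclude all assignments which arrive there. -/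
inductive Branch {n : ℕ} (F : CNF n) (𝓛 : Finset (Line n)) (q : ℕ) :
    Set (Fin n → Bool) → ℕ → ℕ → Prop
  | leaf (Q : Set (Fin n → Bool)) (t : ℕ) : Leaf F q Q → Branch F 𝓛 q Q t 1
  | node (Q : Set (Fin n → Bool)) (L : Line n) (t s₁ s₂ : ℕ) : L ∈ 𝓛 →
      Branch F 𝓛 q (Q ∩ L) t s₁ → Branch F 𝓛 q (Q \ L) t s₂ → Branch F 𝓛 q Q (t + 1) (s₁ + s₂)

/-- A scan with bounded memory: the contents `M 0, .., M T` of the memory are Boolean functions;
`M 0` excludes nothing, `M T` excludes everything, `M t` is in the family `𝓛` for `0 < t < T`, and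
`M (t + 1)` follows from `M t` and at most `q` clauses of `F`. -/
structure Scan {n : ℕ} (F : CNF n) (𝓛 : Finset (Line n)) (q T : ℕ) (M : ℕ → Line n) : Prop where
  zero : M 0 = Set.univ
  last : M T = ∅
  mem : ∀ t, 0 < t → t < T → M t ∈ 𝓛
  step : ∀ t, t < T → Leaf F q (M t \ M (t + 1))

/-- The final statement. -/
def Main : Prop :=
  ∀ (c : ℕ) (ε : ℝ), 0 < ε → ∃ C : ℕ, ∀ n : ℕ, C ≤ n → ∀ 𝓛 : Finset (Line n),
    𝓛.card ≤ 2 ^ n ^ c → ∃ F : CNF n,
      F.card ≤ n ^ C ∧ (∀ D ∈ F, D.card ≤ C * Nat.log 2 n) ∧ (∀ x, ∃ D ∈ F, Falsified D x) ∧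
      (∀ s : ℕ, Tree F 𝓛 (n ^ c) ∅ s → (2 : ℝ) ^ ((1 - ε) * n) ≤ s) ∧
      (∀ t s : ℕ, t ≤ n ^ c → Branch F 𝓛 (n ^ c) Set.univ t s → (2 : ℝ) ^ ((1 - ε) * n) ≤ s) ∧
      (∀ (T : ℕ) (M : ℕ → Line n), Scan F 𝓛 (n ^ c) T M → (2 : ℝ) ^ ((1 - ε) * n) ≤ T) ∧
      ∀ (S r : ℕ) (L : ℕ → Line n) (h : ℕ → ℕ), Refutes F 𝓛 (n ^ c) S r L h →
        (∀ ρ : ℝ, 0 ≤ ρ → (h r : ℝ) ≤ (1 + ρ) * n → (2 : ℝ) ^ ((1 - ρ - ε) * n) ≤ S) ∧
        ∀ K : ℝ, 1 ≤ K → (h r : ℝ) ≤ K * n → (2 : ℝ) ^ ((1 / (2 * K - 1) - ε) * n) ≤ S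

end Pool.Agent.H97.SHL
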