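import Pool.Agent.H97.SHL.StmtU

/-!
Short lines at the scale of SETH (MP_c62aed_lc): the statement with bounded space.
-/

set_option autoImplicit false

namespace Pool.Agent.H97.SHL

open Finset

/-- A refutation with bounded space, of any depth: at time `i` the memory `K i` contains at most
`s` lines, all of them in the family `𝓛`. At time `0` the memory is empty, at time `T` it is
contradictory. Every line of `K (i + 1)` follows from the lines of `K i` and at most `s` clauses of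
`F`. -/
structure Space {n : ℕ} (F : CNF n) (𝓛 : Finset (Line n)) (s T : ℕ) (K : ℕ → Finset (Line n)) :
    Prop where
  zero : K 0 = ∅
  last : ∀ x, ∃ L ∈ K T, x ∉ L
  mem : ∀ i, i ≤ T → K i ⊆ 𝓛
  card : ∀ i, i ≤ T → (K i).card ≤ s
  step : ∀ i, i < T → ∀ L ∈ K (i + 1), Leaf F s ({x | ∀ L' ∈ K i, x ∈ L'} \ L)

/-- The final statement. -/
def MainV : Prop :=
  ∀ ε : ℝ, 0 < ε → ∃ C : ℕ, ∀ n t : ℕ, C ≤ n → n ≤ t → C * Nat.log 2 t ≤ n →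
    ∀ 𝓛 : Finset (Line n), 𝓛.card ≤ 2 ^ t → ∃ F : CNF n,
      F.card ≤ t ^ C ∧ (∀ D ∈ F, D.card ≤ C * Nat.log 2 t) ∧ (∀ x, ∃ D ∈ F, Falsified D x) ∧
      (∀ s : ℕ, Tree F 𝓛 t ∅ s → (2 : ℝ) ^ ((1 - ε) * n) ≤ s) ∧
      (∀ d s : ℕ, d ≤ t → Branch F 𝓛 t Set.univ d s → (2 : ℝ) ^ ((1 - ε) * n) ≤ s) ∧
      (∀ (T : ℕ) (K : ℕ → Finset (Line n)), Space F 𝓛 t T K → (2 : ℝ) ^ ((1 - ε) * n) ≤ T) ∧
      ∀ (S r : ℕ) (L : ℕ → Line n) (h : ℕ → ℕ), Refutes F 𝓛 t S r L h →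
        (∀ ρ : ℝ, 0 ≤ ρ → (h r : ℝ) ≤ (1 + ρ) * n → (2 : ℝ) ^ ((1 - ρ - ε) * n) ≤ S) ∧
        ∀ K : ℝ, 1 ≤ K → (h r : ℝ) ≤ K * n → (2 : ℝ) ^ ((1 / (2 * K - 1) - ε) * n) ≤ S

end Pool.Agent.H97.SHL
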